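import Mathlib

/-!
# MP_31f1e8: counting full branches of a concave function
-/

namespace Pool.Agent.MP31f1e8

open Finset

theorem count (f f' : ℝ → ℝ) {t0 t1 m : ℝ} (h01 : t0 ≤ t1)
    (hf : ∀ t, HasDerivAt f (f' t) t) (hanti : ∀ x ∈ Set.Icc t0 t1, ∀ y ∈ Set.Icc t0 t1, x ≤ y →
      f' y ≤ f' x) (hm : 0 < m) (hfm : ∀ t ∈ Set.Icc t0 t1, m ≤ f' t) (h0 : 0 ≤ f t0)
    (hbig : f t0 + 6 * Real.pi ≤ f t1) :
    ∃ (n : ℕ) (d : ℤ) (T : ℕ → ℝ), 0 ≤ d ∧
      (∀ j ≤ n + 1, T j ∈ Set.Icc t0 t1 ∧ f (T j) = 2 * Real.pi * (d + j)) ∧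
      (∀ j, j + 2 ≤ n + 1 → T j ≤ T (j + 2)) ∧
      (t1 - t0 - 6 * Real.pi / m) / (2 * Real.pi) ≤ ∑ j ∈ range n, (f' (T j))⁻¹ ∧
      (∀ t ∈ Set.Icc t0 t1, ∃ j < n, |T j - t| ≤ 6 * Real.pi / m ∧
        |T (j + 2) - t| ≤ 6 * Real.pi / m) := by
  have hpi := Real.pi_pos
  have hpi2 : 0 < 2 * Real.pi := by positivity
  have hcont : Continuous f := continuous_iff_continuousAt.2 fun t => (hf t).continuousAt
  -- slopes
  have hslope : ∀ x ∈ Set.Icc t0 t1, ∀ y ∈ Set.Icc t0 t1, x ≤ y →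
      f' y * (y - x) ≤ f y - f x := by
    intro x hx y hy hxy
    rcases eq_or_lt_of_le hxy with h | h
    · rw [h]
      simp
    · obtain ⟨ξ, hξ, h2⟩ := exists_hasDerivAt_eq_slope f f' h hcont.continuousOn
        (fun z _ => hf z)
      have h3 : 0 < y - x := by linarith
      rw [eq_div_iff h3.ne'] at h2
      have h4 := hanti ξ ⟨hx.1.trans hξ.1.le, hξ.2.le.trans hy.2⟩ y hy hξ.2.le
      rw [← h2]
      exact mul_le_mul_of_nonneg_right h4 h3.le
  have hslm : ∀ x ∈ Set.Icc t0 t1, ∀ y ∈ Set.Icc t0 t1, x ≤ y → m * (y - x) ≤ f y - f x := by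
    intro x hx y hy hxy
    refine le_trans ?_ (hslope x hx y hy hxy)
    exact mul_le_mul_of_nonneg_right (hfm y hy) (by linarith)
  have hmono : ∀ x ∈ Set.Icc t0 t1, ∀ y ∈ Set.Icc t0 t1, f x ≤ f y → x ≤ y := by
    intro x hx y hy hxy
    by_contra h
    push Not at h
    have h2 := hslm y hy x hx h.le
    have h3 : 0 < m * (x - y) := mul_pos hm (by linarith)
    linarith
  have habs : ∀ x ∈ Set.Icc t0 t1, ∀ y ∈ Set.Icc t0 t1, |f x - f y| ≤ 6 * Real.pi →
      |x - y| ≤ 6 * Real.pi / m := by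
    intro x hx y hy hxy
    rw [le_div_iff₀ hm]
    rw [abs_le] at hxy
    rcases le_total x y with h | h
    · have h2 := hslm x hx y hy h
      rw [abs_of_nonpos (by linarith)]
      linarith [hxy.1]
    · have h2 := hslm y hy x hx h
      rw [abs_of_nonneg (by linarith)]
      linarith [hxy.2]
  obtain ⟨d0, hd0⟩ : ∃ d0 : ℤ, d0 = ⌈f t0 / (2 * Real.pi)⌉ := ⟨_, rfl⟩
  obtain ⟨d1, hd1⟩ : ∃ d1 : ℤ, d1 = ⌊f t1 / (2 * Real.pi)⌋ := ⟨_, rfl⟩
  have e1 : f t0 ≤ 2 * Real.pi * d0 := by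
    have := Int.le_ceil (f t0 / (2 * Real.pi))
    rw [← hd0, div_le_iff₀ hpi2] at this
    linarith
  have e2 : 2 * Real.pi * (d0 - 1) < f t0 := by
    have := Int.ceil_lt_add_one (f t0 / (2 * Real.pi))
    rw [← hd0] at this
    have h2 : (d0 : ℝ) - 1 < f t0 / (2 * Real.pi) := by linarith
    rw [lt_div_iff₀ hpi2] at h2
    linarith
  have e3 : 2 * Real.pi * d1 ≤ f t1 := by
    have := Int.floor_le (f t1 / (2 * Real.pi))
    rw [← hd1, le_div_iff₀ hpi2] at this
    linarith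
  have e4 : f t1 < 2 * Real.pi * (d1 + 1) := by
    have := Int.lt_floor_add_one (f t1 / (2 * Real.pi))
    rw [← hd1, div_lt_iff₀ hpi2] at this
    linarith
  have e5 : 0 ≤ d0 := by
    rw [hd0]
    exact Int.ceil_nonneg (by positivity)
  have e6 : d0 + 2 ≤ d1 := by
    have h1 : (d0 : ℝ) + 1 < d1 := by
      have h2 : 2 * Real.pi * (d0 + 1) < 2 * Real.pi * d1 := by linarith
      exact lt_of_mul_lt_mul_left h2 hpi2.le
    have h2 : d0 + 1 < d1 := by exact_mod_cast h1
    omega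
  obtain ⟨n, hn⟩ : ∃ n : ℕ, (n : ℤ) = d1 - d0 - 1 := ⟨(d1 - d0 - 1).toNat, by omega⟩
  have hnr : (n : ℝ) = d1 - d0 - 1 := by exact_mod_cast hn
  have hn1 : 1 ≤ n := by omega
  have hT : ∀ j : ℕ, ∃ T ∈ Set.Icc t0 t1, f T = min (f t1) (2 * Real.pi * (d0 + j)) := by
    intro j
    have h2 := intermediate_value_Icc h01 hcont.continuousOn
    have h3 : min (f t1) (2 * Real.pi * (d0 + j)) ∈ Set.Icc (f t0) (f t1) := by
      refine ⟨le_min (by linarith) ?_, min_le_left _ _⟩
      have : (0 : ℝ) ≤ 2 * Real.pi * j := by positivity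
      nlinarith
    obtain ⟨T, hT, hT'⟩ := h2 h3
    exact ⟨T, hT, hT'⟩
  choose T hT1 hT2 using hT
  have hT3 : ∀ j ≤ n + 1, f (T j) = 2 * Real.pi * (d0 + j) := by
    intro j hj
    rw [hT2, min_eq_right]
    have : (j : ℝ) ≤ n + 1 := by exact_mod_cast hj
    have h2 : 2 * Real.pi * (d0 + j) ≤ 2 * Real.pi * d1 := by
      apply mul_le_mul_of_nonneg_left _ hpi2.le
      linarith
    linarith
  refine ⟨n, d0, T, e5, fun j hj => ⟨hT1 j, hT3 j hj⟩, ?_, ?_, ?_⟩
  · intro j hj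
    apply hmono _ (hT1 j) _ (hT1 (j + 2))
    rw [hT3 j (by omega), hT3 (j + 2) hj]
    apply mul_le_mul_of_nonneg_left _ hpi2.le
    push_cast
    linarith
  · -- the sum
    obtain ⟨U, hU⟩ : ∃ U : ℕ → ℝ, U = fun j => if j = 0 then t0 else T (j - 1) := ⟨_, rfl⟩
    have hU0 : U 0 = t0 := by rw [hU]; simp
    have hU1 : ∀ j, U (j + 1) = T j := by intro j; rw [hU]; simp
    have hterm : ∀ j ∈ range n, (U (j + 1) - U j) / (2 * Real.pi) ≤ (f' (T j))⁻¹ := by
      intro j hj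
      rw [mem_range] at hj
      have h1 : 0 < f' (T j) := lt_of_lt_of_le hm (hfm _ (hT1 j))
      rw [inv_eq_one_div, div_le_div_iff₀ hpi2 h1, hU1]
      rcases Nat.eq_zero_or_pos j with h | h
      · rw [h, hU0]
        have h2 := hslope t0 ⟨le_rfl, h01⟩ (T 0) (hT1 0) (hT1 0).1
        have h3 := hT3 0 (by omega)
        push_cast at h3
        linarith
      · obtain ⟨i, rfl⟩ : ∃ i, j = i + 1 := ⟨j - 1, by omega⟩
        rw [hU1]
        have h3 := hT3 i (by omega)
        have h4 := hT3 (i + 1) (by omega)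
        push_cast at h4
        have h5 : T i ≤ T (i + 1) := by
          apply hmono _ (hT1 i) _ (hT1 (i + 1))
          linarith
        have h2 := hslope (T i) (hT1 i) (T (i + 1)) (hT1 (i + 1)) h5
        linarith
    refine le_trans ?_ (sum_le_sum hterm)
    rw [← sum_div, sum_range_sub, hU0]
    apply div_le_div_of_nonneg_right _ hpi2.le
    obtain ⟨i, rfl⟩ : ∃ i, n = i + 1 := ⟨n - 1, by omega⟩
    rw [hU1]
    have h2 := hslm (T i) (hT1 i) t1 ⟨h01, le_rfl⟩ (hT1 i).2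
    have h3 := hT3 i (by omega)
    have h4 : t1 - T i ≤ 6 * Real.pi / m := by
      rw [le_div_iff₀ hm]
      push_cast at hnr
      have h5 : (i : ℝ) = d1 - d0 - 2 := by linarith
      rw [h5] at h3
      linarith
    linarith
  · -- density
    intro t ht
    have hv0 : f t0 ≤ f t := by
      have := hslm t0 ⟨le_rfl, h01⟩ t ht ht.1
      nlinarith [mul_nonneg hm.le (by linarith [ht.1] : 0 ≤ t - t0)]
    have hv1 : f t ≤ f t1 := by
      have := hslm t ht t1 ⟨h01, le_rfl⟩ ht.2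
      nlinarith [mul_nonneg hm.le (by linarith [ht.2] : 0 ≤ t1 - t)]
    obtain ⟨e, he⟩ : ∃ e : ℤ, e = ⌊f t / (2 * Real.pi)⌋ - d0 := ⟨_, rfl⟩
    have g1 : 2 * Real.pi * (d0 + e) ≤ f t := by
      have := Int.floor_le (f t / (2 * Real.pi))
      rw [le_div_iff₀ hpi2] at this
      rw [he]
      push_cast
      linarith
    have g2 : f t < 2 * Real.pi * (d0 + e + 1) := by
      have := Int.lt_floor_add_one (f t / (2 * Real.pi))
      rw [div_lt_iff₀ hpi2] at this
      rw [he]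
      push_cast
      linarith
    rcases le_or_gt e 0 with h | h
    · refine ⟨0, by omega, habs _ (hT1 0) _ ht ?_, habs _ (hT1 _) _ ht ?_⟩
      · rw [hT3 0 (by omega)]
        have : (e : ℝ) ≤ 0 := by exact_mod_cast h
        have h3 : 2 * Real.pi * (d0 + e + 1) ≤ 2 * Real.pi * (d0 + 1) :=
          mul_le_mul_of_nonneg_left (by linarith) hpi2.le
        push_cast
        rw [abs_le]
        constructor <;> linarith
      · rw [hT3 (0 + 2) (by omega)]
        have : (e : ℝ) ≤ 0 := by exact_mod_cast h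
        have h3 : 2 * Real.pi * (d0 + e + 1) ≤ 2 * Real.pi * (d0 + 1) :=
          mul_le_mul_of_nonneg_left (by linarith) hpi2.le
        push_cast
        rw [abs_le]
        constructor <;> linarith
    · rcases lt_or_ge e n with h' | h'
      · obtain ⟨j, rfl⟩ : ∃ j : ℕ, e = j := ⟨e.toNat, by omega⟩
        push_cast at g1 g2
        refine ⟨j, by omega, habs _ (hT1 _) _ ht ?_, habs _ (hT1 _) _ ht ?_⟩
        · rw [hT3 j (by omega), abs_le]
          constructor <;> linarith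
        · rw [hT3 (j + 2) (by omega), abs_le]
          push_cast
          constructor <;> linarith
      · obtain ⟨i, rfl⟩ : ∃ i, n = i + 1 := ⟨n - 1, by omega⟩
        have h5 : ((i : ℝ) + 1) ≤ e := by exact_mod_cast h'
        have h6 : 2 * Real.pi * (d0 + (i + 1)) ≤ 2 * Real.pi * (d0 + e) :=
          mul_le_mul_of_nonneg_left (by linarith) hpi2.le
        push_cast at hnr
        have h7 : (d1 : ℝ) = d0 + i + 2 := by linarith
        rw [h7] at e4
        refine ⟨i, by omega, habs _ (hT1 _) _ ht ?_, habs _ (hT1 _) _ ht ?_⟩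
        · rw [hT3 i (by omega), abs_le]
          constructor <;> linarith
        · rw [hT3 (i + 2) (by omega), abs_le]
          push_cast
          constructor <;> linarith

end Pool.Agent.MP31f1e8
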