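import Pool.Agent.Lib.MP_31f1e8_mp.Dim
import Pool.Agent.Lib.MP_31f1e8_mp.Count

/-!
# MP_31f1e8: the full branches of the Standard map
-/

namespace Pool.Agent.MP31f1e8

open Finset

/-- lower bound for the derivative -/
theorem deriv_low {lam t : ℝ} (hlam : 1600 ≤ lam) (h0 : 0 ≤ t)
    (ht : t ≤ Real.pi / 2 - 4 / √lam) : 3.9 * √lam ≤ lam * Real.cos t - 2 := by
  obtain ⟨q1, q2, q3, q4, -, -, -⟩ := param hlam
  have hpi := Real.pi_gt_three
  have h1 : Real.cos (Real.pi / 2 - 4 / √lam) ≤ Real.cos t :=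
    Real.cos_le_cos_of_nonneg_of_le_pi h0 (by linarith) ht
  rw [Real.cos_pi_div_two_sub] at h1
  have h2 := Real.sin_gt_sub_cube q3
  have h3 : lam * (4 / √lam) = 4 * √lam := by
    have : √lam ≠ 0 := by linarith
    nth_rewrite 1 [← q2]
    field_simp
  have h4 : lam * (4 / √lam) ^ 3 ≤ 2 := by
    have e : lam * (4 / √lam) ^ 3 = 4 * √lam * (4 / √lam) ^ 2 := by
      calc lam * (4 / √lam) ^ 3 = (lam * (4 / √lam)) * (4 / √lam) ^ 2 := by ring
        _ = _ := by rw [h3]
    have e2 : 4 * √lam * (4 / √lam) ^ 2 = 16 * (4 / √lam) := by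
      have : √lam ≠ 0 := by linarith
      field_simp
      norm_num
    rw [e, e2]
    linarith
  have h5 : lam * (4 / √lam - (4 / √lam) ^ 3 / 6) ≤ lam * Real.cos t :=
    mul_le_mul_of_nonneg_left (h2.le.trans h1) (by linarith)
  nlinarith

/-- The full branches in `[0, pi]`. -/
theorem exists_base {lam : ℝ} (hlam : 1600 ≤ lam) :
    ∃ (ι : Type) (_ : Fintype ι) (A B : ι → ℝ) (k : ι → ℤ) (M : ι → ℝ),
      (∀ c, A c ≤ B c ∧ 0 ≤ A c ∧ B c ≤ Real.pi - 4 / √lam) ∧
      (∀ c, 1 ≤ k c) ∧ (∀ c, 3.9 * √lam ≤ M c) ∧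
      (∀ c, ∀ x ∈ Set.Icc (A c) (B c), 3 ≤ |2 + lam * Real.cos x| ∧
        |2 + lam * Real.cos x| ≤ M c) ∧
      (∀ c, (F lam (A c) ≤ 2 * Real.pi * k c - 2 * Real.pi ∧
        2 * Real.pi * k c + 2 * Real.pi ≤ F lam (B c)) ∨
        (F lam (B c) ≤ 2 * Real.pi * k c - 2 * Real.pi ∧
          2 * Real.pi * k c + 2 * Real.pi ≤ F lam (A c))) ∧
      (∀ c c', c ≠ c' → k c ≠ k c' ∨ ∀ x ∈ Set.Icc (A c) (B c), ∀ x' ∈ Set.Icc (A c') (B c'),
        2 * (4 / √lam) ≤ |x - x'|) ∧
      1 / 2 * (1 - 6.9 / √lam) ≤ ∑ c, (M c)⁻¹ ∧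
      (∀ x, 0 ≤ x → x ≤ Real.pi → ∃ c, ∀ x' ∈ Set.Icc (A c) (B c), |x' - x| ≤ 9 / √lam) := by
  classical
  obtain ⟨q1, q2, q3, q4, -, -, -⟩ := param hlam
  have hpi := Real.pi_gt_d2
  have hpi' := Real.pi_lt_d2
  obtain ⟨q, hq⟩ : ∃ q : ℝ, q = √lam := ⟨_, rfl⟩
  obtain ⟨h, hh⟩ : ∃ h : ℝ, h = 4 / √lam := ⟨_, rfl⟩
  have hlow : ∀ t, 0 ≤ t → t ≤ Real.pi / 2 - h → 3.9 * q ≤ lam * Real.cos t - 2 := by
    intro t h0 ht
    rw [hq]
    rw [hh] at ht
    exact deriv_low hlam h0 ht
  rw [← hh] at q3 q4 ⊢
  rw [← hq] at q1 q2 ⊢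
  have hhq : h * q = 4 := by
    rw [hh, ← hq]
    have : q ≠ 0 := by linarith
    field_simp
  have hlam0 : 0 < lam := by linarith
  have hanti : ∀ x y : ℝ, 0 ≤ x → y ≤ Real.pi → x ≤ y → lam * Real.cos y ≤ lam * Real.cos x := by
    intro x y h0 h1 h2
    exact mul_le_mul_of_nonneg_left (Real.cos_le_cos_of_nonneg_of_le_pi h0 h1 h2) hlam0.le
  have hcosh : lam - 8 ≤ lam * Real.cos h := by
    have h1 := Real.one_sub_sq_div_two_le_cos (x := h)
    have h2 : lam * (1 - h ^ 2 / 2) ≤ lam * Real.cos h := mul_le_mul_of_nonneg_left h1 hlam0.le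
    have h3 : lam * h ^ 2 = 16 := by
      calc lam * h ^ 2 = (h * q) ^ 2 := by rw [← q2]; ring
        _ = 16 := by rw [hhq]; norm_num
    linarith
  have hsinh : lam * Real.sin h ≤ lam / 10 := by
    have h1 := Real.sin_le q3.le
    have h2 : lam * Real.sin h ≤ lam * h := mul_le_mul_of_nonneg_left h1 hlam0.le
    nlinarith
  have hsinh0 : 0 ≤ Real.sin h := Real.sin_nonneg_of_nonneg_of_le_pi q3.le (by linarith)
  have hm0 : (0 : ℝ) < 3.9 * q := by linarith
  -- the branches in `[0, pi/2]`
  obtain ⟨n, d, T, hd, hT, hTm, hTs, hTd⟩ := count (fun t => lam * Real.sin t + 2 * t)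
    (fun t => lam * Real.cos t + 2) (t0 := 0) (t1 := Real.pi / 2 - h) (m := 3.9 * q)
    (by linarith) (by
      intro t
      have := ((Real.hasDerivAt_sin t).const_mul lam).add ((hasDerivAt_id t).const_mul 2)
      rw [mul_one] at this
      exact this) (by
      intro x hx y hy hxy
      have := hanti x y hx.1 (by linarith [hy.2]) hxy
      linarith) hm0 (by
      intro t ht
      have := hlow t ht.1 ht.2
      linarith) (by simp) (by
      rw [Real.sin_pi_div_two_sub, Real.sin_zero]
      linarith)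
  -- the branches in `[pi/2, pi]`
  obtain ⟨n', d', S, hd', hS, hSm, hSs, hSd⟩ := count (fun t => lam * Real.sin t - 2 * t)
    (fun t => lam * Real.cos t - 2) (t0 := h) (t1 := Real.pi / 2 - h) (m := 3.9 * q)
    (by linarith) (by
      intro t
      have := ((Real.hasDerivAt_sin t).const_mul lam).sub ((hasDerivAt_id t).const_mul 2)
      rw [mul_one] at this
      exact this) (by
      intro x hx y hy hxy
      have := hanti x y (by linarith [hx.1]) (by linarith [hy.2]) hxy
      linarith) hm0 (by
      intro t ht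
      exact hlow t (by linarith [ht.1]) ht.2) (by
      have h1 := Real.sin_gt_sub_cube q3
      have h2 : h / 2 ≤ Real.sin h := by nlinarith [sq_nonneg h]
      nlinarith) (by
      rw [Real.sin_pi_div_two_sub]
      linarith)
  refine ⟨Fin n ⊕ Fin n', inferInstance,
    Sum.elim (fun j => T j) (fun j => Real.pi - S (j + 2)),
    Sum.elim (fun j => T (j + 2)) (fun j => Real.pi - S j),
    Sum.elim (fun j => d + j + 1) (fun j => d' + j + 2),
    Sum.elim (fun j => lam * Real.cos (T j) + 2) (fun j => lam * Real.cos (S j) - 2),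
    ?_, ?_, ?_, ?_, ?_, ?_, ?_, ?_⟩
  · rintro (j | j)
    · have h1 := hTm j (by omega)
      have h2 := (hT j (by omega)).1
      have h3 := (hT (j + 2) (by omega)).1
      simp only [Sum.elim_inl]
      exact ⟨h1, h2.1, by linarith [h3.2]⟩
    · have h1 := hSm j (by omega)
      have h2 := (hS j (by omega)).1
      have h3 := (hS (j + 2) (by omega)).1
      simp only [Sum.elim_inr]
      exact ⟨by linarith, by linarith [h3.2], by linarith [h2.1]⟩
  · rintro (j | j)
    · simp only [Sum.elim_inl]
      omega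
    · simp only [Sum.elim_inr]
      omega
  · rintro (j | j)
    · have h2 := (hT j (by omega)).1
      have := hlow (T j) h2.1 h2.2
      simp only [Sum.elim_inl]
      linarith
    · have h2 := (hS j (by omega)).1
      simp only [Sum.elim_inr]
      exact hlow (S j) (by linarith [h2.1]) h2.2
  · rintro (j | j) x hx
    · simp only [Sum.elim_inl] at hx ⊢
      have h2 := (hT j (by omega)).1
      have h3 := (hT (j + 2) (by omega)).1
      have h4 := hlow x (by linarith [h2.1, hx.1]) (by linarith [h3.2, hx.2])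
      have h5 := hanti (T j) x h2.1 (by linarith [h3.2, hx.2]) hx.1
      rw [abs_of_pos (by linarith)]
      constructor <;> linarith
    · simp only [Sum.elim_inr] at hx ⊢
      have h2 := (hS j (by omega)).1
      have h3 := (hS (j + 2) (by omega)).1
      have h4 := hlow (Real.pi - x) (by linarith [h2.1, hx.2]) (by linarith [h3.2, hx.1])
      have h5 := hanti (S j) (Real.pi - x) (by linarith [h2.1]) (by linarith [h3.2, hx.1])
        (by linarith [hx.2])
      rw [Real.cos_pi_sub] at h4 h5
      rw [abs_of_neg (by linarith)]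
      constructor <;> linarith
  · rintro (j | j)
    · left
      have h2 := (hT j (by omega)).2
      have h3 := (hT (j + 2) (by omega)).2
      simp only [Sum.elim_inl]
      unfold F
      push_cast at h2 h3 ⊢
      constructor <;> linarith
    · right
      have h2 := (hS j (by omega)).2
      have h3 := (hS (j + 2) (by omega)).2
      simp only [Sum.elim_inr]
      unfold F
      rw [Real.sin_pi_sub, Real.sin_pi_sub]
      push_cast at h2 h3 ⊢
      constructor <;> linarith
  · have cross : ∀ (j : Fin n) (j' : Fin n'), ∀ x ∈ Set.Icc (T j) (T (j + 2)),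
        ∀ x' ∈ Set.Icc (Real.pi - S (j' + 2)) (Real.pi - S j'), 2 * h ≤ x' - x := by
      intro j j' x hx x' hx'
      have h3 := (hT (j + 2) (by omega)).1
      have h4 := (hS (j' + 2) (by omega)).1
      linarith [hx.2, hx'.1, h3.2, h4.2]
    rintro (j | j) (j' | j') hne
    · left
      simp only [Sum.elim_inl]
      intro h1
      apply hne
      congr 1
      apply Fin.ext
      omega
    · right
      intro x hx x' hx'
      simp only [Sum.elim_inl, Sum.elim_inr] at hx hx'
      have := cross j j' x hx x' hx'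
      rw [abs_sub_comm]
      exact this.trans (le_abs_self _)
    · right
      intro x hx x' hx'
      simp only [Sum.elim_inl, Sum.elim_inr] at hx hx'
      have := cross j' j x' hx' x hx
      exact this.trans (le_abs_self _)
    · left
      simp only [Sum.elim_inr]
      intro h1
      apply hne
      congr 1
      apply Fin.ext
      omega
  · rw [Fintype.sum_sum_type]
    simp only [Sum.elim_inl, Sum.elim_inr]
    rw [Finset.sum_range] at hTs hSs
    refine le_trans ?_ (add_le_add hTs hSs)
    rw [← add_div, le_div_iff₀ (by positivity)]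
    have e1 : 6 * Real.pi / (3.9 * q) = Real.pi * (6 / 3.9) / q := by
      field_simp
    have e2 : h = 4 / q := by rw [hh, hq]
    rw [e1, e2]
    have hq0 : 0 < q := by linarith
    have e3 : 1 / 2 * (1 - 6.9 / q) * (2 * Real.pi) = Real.pi - 6.9 * Real.pi / q := by ring
    rw [e3]
    have e4 : Real.pi / 2 - 4 / q - 0 - Real.pi * (6 / 3.9) / q +
        (Real.pi / 2 - 4 / q - 4 / q - Real.pi * (6 / 3.9) / q) =
        Real.pi - (12 + Real.pi * (12 / 3.9)) / q := by ring
    rw [e4]
    have e5 : (12 + Real.pi * (12 / 3.9)) / q ≤ 6.9 * Real.pi / q := by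
      apply div_le_div_of_nonneg_right _ hq0.le
      norm_num at hpi ⊢
      linarith
    linarith
  · intro x hx0 hx1
    have hq0 : 0 < q := by linarith
    have e1 : 6 * Real.pi / (3.9 * q) + h ≤ 9 / q := by
      have e2 : h = 4 / q := by rw [hh, hq]
      have e3 : 6 * Real.pi / (3.9 * q) = Real.pi * (6 / 3.9) / q := by
        field_simp
      rw [e2, e3, ← add_div]
      apply div_le_div_of_nonneg_right _ hq0.le
      norm_num at hpi' ⊢
      linarith
    rcases le_total x (Real.pi / 2) with hx | hx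
    · obtain ⟨j, hj, hj1, hj2⟩ := hTd (min x (Real.pi / 2 - h))
        ⟨le_min hx0 (by linarith), min_le_right _ _⟩
      have h1 : |min x (Real.pi / 2 - h) - x| ≤ h := by
        rw [abs_le]
        constructor
        · have : x - h ≤ min x (Real.pi / 2 - h) := le_min (by linarith) (by linarith)
          linarith
        · have := min_le_left x (Real.pi / 2 - h)
          linarith
      refine ⟨Sum.inl ⟨j, hj⟩, ?_⟩
      intro x' hx'
      simp only [Sum.elim_inl] at hx'
      rw [abs_le] at hj1 hj2 h1 ⊢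
      constructor <;> linarith [hx'.1, hx'.2, hj1.1, hj1.2, hj2.1, hj2.2, h1.1, h1.2]
    · obtain ⟨j, hj, hj1, hj2⟩ := hSd (max h (min (Real.pi - x) (Real.pi / 2 - h)))
        ⟨le_max_left _ _, max_le (by linarith) (min_le_right _ _)⟩
      have h1 : |max h (min (Real.pi - x) (Real.pi / 2 - h)) - (Real.pi - x)| ≤ h := by
        rw [abs_le]
        constructor
        · have h2 : Real.pi - x - h ≤ min (Real.pi - x) (Real.pi / 2 - h) :=
            le_min (by linarith) (by linarith)
          have h3 := le_max_right h (min (Real.pi - x) (Real.pi / 2 - h))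
          linarith
        · have h2 : max h (min (Real.pi - x) (Real.pi / 2 - h)) ≤ h + (Real.pi - x) :=
            max_le (by linarith) (by
              have := min_le_left (Real.pi - x) (Real.pi / 2 - h)
              linarith)
          linarith
      refine ⟨Sum.inr ⟨j, hj⟩, ?_⟩
      intro x' hx'
      simp only [Sum.elim_inr] at hx'
      rw [abs_le] at hj1 hj2 h1 ⊢
      constructor <;> linarith [hx'.1, hx'.2, hj1.1, hj1.2, hj2.1, hj2.2, h1.1, h1.2]

end Pool.Agent.MP31f1e8
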