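import Pool.Agent.Lib.MP_31f1e8_mp.Digit

/-!
# MP_31f1e8: two coded half-orbits
-/

namespace Pool.Agent.MP31f1e8

open Finset

/-- `F(x) = 2 x + lam sin x`; the orbits of the Standard map are the solutions of
`x (n + 1) + x (n - 1) = F (x n)` modulo `2 pi`. -/
noncomputable def F (lam x : ℝ) : ℝ := 2 * x + lam * Real.sin x

theorem F_hasDerivAt (lam x : ℝ) : HasDerivAt (F lam) (2 + lam * Real.cos x) x := by
  have h1 : HasDerivAt (fun y : ℝ => 2 * y + lam * Real.sin y) (2 * 1 + lam * Real.cos x) x :=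
    ((hasDerivAt_id x).const_mul 2).add ((Real.hasDerivAt_sin x).const_mul lam)
  rw [mul_one] at h1
  exact h1

theorem F_continuous (lam : ℝ) : Continuous (F lam) := by
  unfold F
  fun_prop

theorem F_mvt (lam : ℝ) {a b x y : ℝ} (hx : x ∈ Set.Icc a b) (hy : y ∈ Set.Icc a b) :
    ∃ ξ ∈ Set.Icc a b, F lam x - F lam y = (2 + lam * Real.cos ξ) * (x - y) := by
  rcases lt_trichotomy x y with h | h | h
  · obtain ⟨ξ, hξ, h2⟩ := exists_hasDerivAt_eq_slope (F lam) (fun z => 2 + lam * Real.cos z) h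
      (F_continuous lam).continuousOn (fun z _ => F_hasDerivAt lam z)
    refine ⟨ξ, ⟨hx.1.trans hξ.1.le, hξ.2.le.trans hy.2⟩, ?_⟩
    have h3 : y - x ≠ 0 := by linarith
    field_simp at h2
    linarith
  · refine ⟨x, hx, ?_⟩
    rw [h]
    ring
  · obtain ⟨ξ, hξ, h2⟩ := exists_hasDerivAt_eq_slope (F lam) (fun z => 2 + lam * Real.cos z) h
      (F_continuous lam).continuousOn (fun z _ => F_hasDerivAt lam z)
    refine ⟨ξ, ⟨hy.1.trans hξ.1.le, hξ.2.le.trans hx.2⟩, ?_⟩
    have h3 : x - y ≠ 0 := by linarith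
    field_simp at h2
    linarith

theorem F_lip {lam : ℝ} (hlam : 0 ≤ lam) (x y : ℝ) : |F lam x - F lam y| ≤ (lam + 2) * |x - y| := by
  obtain ⟨ξ, -, h⟩ := F_mvt lam (a := min x y) (b := max x y)
    ⟨min_le_left _ _, le_max_left _ _⟩ ⟨min_le_right _ _, le_max_right _ _⟩
  rw [h, abs_mul]
  refine mul_le_mul_of_nonneg_right ?_ (abs_nonneg _)
  have h1 := Real.abs_cos_le_one ξ
  refine (abs_add_le _ _).trans ?_
  rw [abs_mul, abs_of_nonneg hlam]
  have : |(2 : ℝ)| = 2 := by norm_num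
  rw [this]
  nlinarith

/-- Two coded half-orbits: the codes are the digits of `y` and `y'`. -/
theorem chain_close {lam h γ s : ℝ} {ι : Type*} {a b : ι → ℝ} {k : ι → ℤ} {M p : ι → ℝ}
    (hlam : 0 ≤ lam) (hh : 0 < h) (hγ : 0 < γ) (hs : 0 < s)
    (hJ : ∀ c, -(Real.pi - h) ≤ a c ∧ b c ≤ Real.pi - h)
    (hder : ∀ c, ∀ x ∈ Set.Icc (a c) (b c), 3 ≤ |2 + lam * Real.cos x| ∧
      |2 + lam * Real.cos x| ≤ M c)
    (hM : ∀ c, 3 ≤ M c)
    (hsep : ∀ c c', c ≠ c' → k c ≠ k c' ∨ ∀ x ∈ Set.Icc (a c) (b c), ∀ x' ∈ Set.Icc (a c') (b c'),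
      γ ≤ |x - x'|)
    (hp0 : ∀ c, 0 < p c) (hp : ∀ c, p c ≤ (M c + 1) ^ (-s))
    {dig : ℝ → ι} {nxt : ℝ → ℝ}
    (hd : ∀ y ∈ Set.Ico (0 : ℝ) 1, nxt y ∈ Set.Ico (0 : ℝ) 1 ∧
      ∀ y' ∈ Set.Ico (0 : ℝ) 1, dig y = dig y' → y - y' = p (dig y) * (nxt y - nxt y'))
    {y y' : ℝ} (hy : y ∈ Set.Ico (0 : ℝ) 1) (hy' : y' ∈ Set.Ico (0 : ℝ) 1)
    {X X' : ℕ → ℝ}
    (hX : ∀ i, X (i + 1) ∈ Set.Icc (a (dig (nxt^[i] y))) (b (dig (nxt^[i] y))))
    (hX' : ∀ i, X' (i + 1) ∈ Set.Icc (a (dig (nxt^[i] y'))) (b (dig (nxt^[i] y'))))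
    (hr : ∀ i, X (i + 2) + X i = F lam (X (i + 1)) - 2 * Real.pi * k (dig (nxt^[i] y)))
    (hr' : ∀ i, X' (i + 2) + X' i = F lam (X' (i + 1)) - 2 * Real.pi * k (dig (nxt^[i] y')))
    {R : ℝ} (hR0 : 0 ≤ R) (h0 : |X 0 - X' 0| ≤ R) (h1 : |X 1 - X' 1| ≤ R) :
    |y - y'| ≤ (R / min γ (2 * h / (lam + 3))) ^ s := by
  classical
  have hpi := Real.pi_pos
  obtain ⟨κ, hκ⟩ : ∃ κ : ℝ, κ = min γ (2 * h / (lam + 3)) := ⟨_, rfl⟩
  have hκ0 : 0 < κ := by
    rw [hκ]
    exact lt_min hγ (by positivity)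
  rw [← hκ]
  have hprod : ∀ n, (∀ i < n, dig (nxt^[i] y) = dig (nxt^[i] y')) →
      |y - y'| ≤ (∏ i ∈ range n, (M (dig (nxt^[i] y)) + 1)) ^ (-s) := by
    intro n hn
    refine (digit_close hp0 hd hy hy' n hn).trans ?_
    rw [← Real.finsetProd_rpow _ _ (fun i _ => by linarith [hM (dig (nxt^[i] y))])]
    exact prod_le_prod (fun i _ => (hp0 _).le) fun i _ => hp _
  by_cases hall : ∀ i, dig (nxt^[i] y) = dig (nxt^[i] y')
  · -- the same code
    have h4 : ∀ n : ℕ, |y - y'| ≤ ((4 : ℝ) ^ (-s)) ^ n := by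
      intro n
      refine (hprod n fun i _ => hall i).trans ?_
      rw [← Real.rpow_natCast ((4 : ℝ) ^ (-s)), ← Real.rpow_mul (by norm_num),
        mul_comm, Real.rpow_mul (by norm_num), Real.rpow_natCast]
      apply Real.rpow_le_rpow_of_nonpos (by positivity) _ (by linarith)
      calc (4 : ℝ) ^ n = ∏ i ∈ range n, (4 : ℝ) := by simp
        _ ≤ _ := prod_le_prod (fun i _ => by norm_num) fun i _ => by
          linarith [hM (dig (nxt^[i] y))]
    have h5 : Filter.Tendsto (fun n : ℕ => ((4 : ℝ) ^ (-s)) ^ n) Filter.atTop (nhds 0) := by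
      apply tendsto_pow_atTop_nhds_zero_of_lt_one (by positivity)
      exact Real.rpow_lt_one_of_one_lt_of_neg (by norm_num) (by linarith)
    have h6 : |y - y'| ≤ 0 := ge_of_tendsto' h5 h4
    exact h6.trans (by positivity)
  · push Not at hall
    obtain ⟨n, hn, hmin⟩ : ∃ n, dig (nxt^[n] y) ≠ dig (nxt^[n] y') ∧
        ∀ i < n, dig (nxt^[i] y) = dig (nxt^[i] y') :=
      ⟨Nat.find hall, Nat.find_spec hall, fun i hi => not_not.1 (Nat.find_min hall hi)⟩
    obtain ⟨A, hA⟩ : ∃ A : ℝ, A = ∏ i ∈ range n, (M (dig (nxt^[i] y)) + 1) := ⟨_, rfl⟩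
    have hA0 : 0 < A := by
      rw [hA]
      exact prod_pos fun i _ => by linarith [hM (dig (nxt^[i] y))]
    have hg := growth (fun i => |X i - X' i|) (fun i => M (dig (nxt^[i] y))) R n h0 h1 hR0
      (fun i _ => by linarith [hM (dig (nxt^[i] y))]) (by
        intro i hi
        have h2 := hr i
        have h3 := hr' i
        have h4 := hX' i
        rw [← hmin i hi] at h3 h4
        obtain ⟨ξ, hξ, h5⟩ := F_mvt lam (hX i) h4
        have h6 : X (i + 2) - X' (i + 2) = (2 + lam * Real.cos ξ) * (X (i + 1) - X' (i + 1)) -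
            (X i - X' i) := by linarith
        rw [h6]
        refine (abs_sub _ _).trans ?_
        rw [abs_mul]
        have h7 := mul_le_mul_of_nonneg_right (hder _ ξ hξ).2 (abs_nonneg (X (i + 1) - X' (i + 1)))
        linarith)
    rw [← hA] at hg
    obtain ⟨hg0, hg1⟩ := hg
    have hκR : κ ≤ R * A := by
      rcases hsep _ _ hn with h2 | h2
      · have h3 : (1 : ℝ) ≤ |((k (dig (nxt^[n] y)) : ℝ) - k (dig (nxt^[n] y')))| := by
          have : (1 : ℤ) ≤ |k (dig (nxt^[n] y)) - k (dig (nxt^[n] y'))| :=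
            Int.one_le_abs (sub_ne_zero.2 h2)
          exact_mod_cast this
        have h4 := hr n
        have h5 := hr' n
        have h6 := F_lip hlam (X (n + 1)) (X' (n + 1))
        have h7 : 2 * Real.pi * ((k (dig (nxt^[n] y)) : ℝ) - k (dig (nxt^[n] y'))) =
            (F lam (X (n + 1)) - F lam (X' (n + 1))) - (X (n + 2) - X' (n + 2)) -
              (X n - X' n) := by linarith
        have h8 : 2 * Real.pi * |((k (dig (nxt^[n] y)) : ℝ) - k (dig (nxt^[n] y')))| ≤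
            |F lam (X (n + 1)) - F lam (X' (n + 1))| + |X (n + 2) - X' (n + 2)| +
              |X n - X' n| := by
          calc 2 * Real.pi * |((k (dig (nxt^[n] y)) : ℝ) - k (dig (nxt^[n] y')))|
              = |2 * Real.pi * ((k (dig (nxt^[n] y)) : ℝ) - k (dig (nxt^[n] y')))| := by
                rw [abs_mul, abs_of_pos (by positivity : (0:ℝ) < 2 * Real.pi)]
            _ ≤ _ := by
                rw [h7]
                refine (abs_sub _ _).trans ?_
                have := abs_sub (F lam (X (n + 1)) - F lam (X' (n + 1))) (X (n + 2) - X' (n + 2))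
                linarith
        have h9 : |X (n + 2) - X' (n + 2)| ≤ 2 * (Real.pi - h) := by
          have e1 := hX (n + 1)
          have e2 := hX' (n + 1)
          have e3 := hJ (dig (nxt^[n + 1] y))
          have e4 := hJ (dig (nxt^[n + 1] y'))
          have e5 : n + 1 + 1 = n + 2 := by ring
          rw [e5] at e1 e2
          rw [abs_le]
          constructor <;> linarith [e1.1, e1.2, e2.1, e2.2, e3.1, e3.2, e4.1, e4.2]
        have h10 : 2 * h ≤ (lam + 3) * (R * A) := by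
          have e1 : (lam + 2) * |X (n + 1) - X' (n + 1)| ≤ (lam + 2) * (R * A) :=
            mul_le_mul_of_nonneg_left hg1 (by linarith)
          nlinarith
        have h11 : 2 * h / (lam + 3) ≤ R * A := by
          rw [div_le_iff₀ (by linarith)]
          linarith
        rw [hκ]
        exact (min_le_right _ _).trans h11
      · have h3 := h2 _ (hX n) _ (hX' n)
        rw [hκ]
        exact (min_le_left _ _).trans (h3.trans hg1)
    refine (hprod n hmin).trans ?_
    rw [← hA, Real.rpow_neg hA0.le, ← Real.inv_rpow hA0.le]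
    apply Real.rpow_le_rpow (by positivity) _ hs.le
    rw [inv_eq_one_div, div_le_div_iff₀ hA0 hκ0]
    linarith

end Pool.Agent.MP31f1e8
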