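import Pool.Agent.Lib.MP_31f1e8_mp.Fix

/-!
# MP_31f1e8: the Standard map, the operators and their point spectrum
-/

namespace Pool.Agent.MP31f1e8

/-- The Chirikov Standard map `T(x, y) = (2 x - y + lam * sin x, x)` of the torus
`(R / 2 pi Z)^2`, with its inverse `(x, y) ↦ (y, 2 y - x + lam * sin y)`. -/
noncomputable def stdMap (lam : ℝ) : Equiv.Perm (Real.Angle × Real.Angle) where
  toFun p := (2 • p.1 - p.2 + ((lam * p.1.sin : ℝ) : Real.Angle), p.1)
  invFun p := (p.2, 2 • p.2 - p.1 + ((lam * p.2.sin : ℝ) : Real.Angle))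
  left_inv p := by
    refine Prod.ext rfl ?_
    show 2 • p.1 - (2 • p.1 - p.2 + ((lam * p.1.sin : ℝ) : Real.Angle)) +
      ((lam * p.1.sin : ℝ) : Real.Angle) = p.2
    abel
  right_inv p := by
    refine Prod.ext ?_ rfl
    show 2 • p.2 - (2 • p.2 - p.1 + ((lam * p.2.sin : ℝ) : Real.Angle)) +
      ((lam * p.2.sin : ℝ) : Real.Angle) = p.1
    abel

/-- The point spectrum of the operator `L(x, y)` on `l^2(Z)`,
`(L u)_n = u_{n+1} - 2 u_n + u_{n-1} + lam * cos(x_n) * u_n`, `(x_n, y_n) = T^n (x, y)`: the set of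
the real `E` for which `L u = E u` has a nonzero solution `u` in `l^2(Z)`. -/
def pointSpectrum (lam : ℝ) (p : Real.Angle × Real.Angle) : Set ℝ :=
  {E | ∃ u : lp (fun _ : ℤ => ℂ) 2, u ≠ 0 ∧ ∀ n : ℤ,
    u (n + 1) - 2 * u n + u (n - 1) + ((lam * ((stdMap lam ^ n) p).1.cos : ℝ) : ℂ) * u n =
      (E : ℂ) * u n}

/-- orbits of the Standard map from real sequences -/
theorem stdMap_zpow {lam : ℝ} {x : ℤ → ℝ} {k : ℤ → ℤ}
    (hx : ∀ n, x (n + 1) + x (n - 1) = 2 * x n + lam * Real.sin (x n) - 2 * Real.pi * k n) (n : ℤ) :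
    (stdMap lam ^ n) ((x 0 : Real.Angle), (x (-1) : Real.Angle)) =
      ((x n : Real.Angle), (x (n - 1) : Real.Angle)) := by
  have key : ∀ n : ℤ, stdMap lam ((x n : Real.Angle), (x (n - 1) : Real.Angle)) =
      ((x (n + 1) : Real.Angle), (x n : Real.Angle)) := by
    intro n
    have h1 : (x (n + 1) : Real.Angle) =
        ((2 * x n + lam * Real.sin (x n) - 2 * Real.pi * k n - x (n - 1) : ℝ) : Real.Angle) := by
      congr 1
      linarith [hx n]
    rw [h1]
    ext
    · show 2 • (x n : Real.Angle) - (x (n - 1) : Real.Angle) +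
        ((lam * (x n : Real.Angle).sin : ℝ) : Real.Angle) = _
      rw [Real.Angle.sin_coe]
      have h2 : ((2 * Real.pi * k n : ℝ) : Real.Angle) = 0 := by
        rw [Real.Angle.coe_eq_zero_iff]
        exact ⟨k n, by simp; ring⟩
      rw [Real.Angle.coe_sub, Real.Angle.coe_sub, h2, Real.Angle.coe_add, two_mul,
        Real.Angle.coe_add, two_nsmul, sub_zero]
      generalize (x n : Real.Angle) = p
      generalize (x (n - 1) : Real.Angle) = q
      generalize ((lam * Real.sin (x n) : ℝ) : Real.Angle) = r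
      abel_nf
    · rfl
  induction n using Int.induction_on with
  | zero => simp
  | succ n ih =>
    rw [add_comm (n : ℤ) 1, zpow_add, zpow_one, Equiv.Perm.mul_apply, ih, key, add_comm 1 (n : ℤ)]
    simp
  | pred n ih =>
    have h1 : (-(n : ℤ) - 1) = -1 + (-(n : ℤ)) := by ring
    rw [h1, zpow_add, Equiv.Perm.mul_apply, ih, zpow_neg_one, Equiv.Perm.inv_eq_iff_eq]
    have h2 := key (-1 + -(n : ℤ))
    rw [h2]
    congr 3
    ring

/-- A coded orbit with a deep well at the site `0` gives an eigenvalue at all its points. -/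
theorem mem_of_orbit {lam : ℝ} {x : ℤ → ℝ} {k : ℤ → ℤ}
    (hx : ∀ n, x (n + 1) + x (n - 1) = 2 * x n + lam * Real.sin (x n) - 2 * Real.pi * k n)
    (hV : ∀ n, n ≠ 0 → lam * Real.cos (x 0) + 6 ≤ lam * Real.cos (x n)) (j : ℤ) :
    (pointSpectrum lam ((x j : Real.Angle), (x (j - 1) : Real.Angle))).Nonempty := by
  obtain ⟨E, u, hu0, hub, hu⟩ := exists_eigvec (fun n => lam * Real.cos (x n)) hV
  have hmem : Memℓp (fun n : ℤ => (u (n + j) : ℂ)) 2 := by
    apply memℓp_gen
    have h1 : Summable fun n : ℤ => ((1 / 4 : ℝ)) ^ n.natAbs := by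
      apply Summable.of_nat_of_neg
      · simpa using summable_geometric_of_lt_one (by norm_num : (0:ℝ) ≤ 1 / 4) (by norm_num)
      · simpa using summable_geometric_of_lt_one (by norm_num : (0:ℝ) ≤ 1 / 4) (by norm_num)
    have h3 : Summable fun n : ℤ => ((1 / 4 : ℝ)) ^ (n + j).natAbs :=
      h1.comp_injective (add_left_injective j)
    refine h3.of_nonneg_of_le (fun n => by positivity) fun n => ?_
    have h2 := hub (n + j)
    simp only [ENNReal.toReal_ofNat, Complex.norm_real, Real.norm_eq_abs, Real.rpow_ofNat]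
    calc |u (n + j)| ^ 2 ≤ ((1 / 2) ^ (n + j).natAbs) ^ 2 := by gcongr
      _ = (1 / 4) ^ (n + j).natAbs := by rw [← pow_mul, mul_comm, pow_mul]; norm_num
  refine ⟨E, ⟨fun n => (u (n + j) : ℂ), hmem⟩, ?_, ?_⟩
  · intro h
    have h1 : ((⟨fun n => (u (n + j) : ℂ), hmem⟩ : lp (fun _ : ℤ => ℂ) 2) : ℤ → ℂ) (-j) = 0 := by
      rw [h]; rfl
    have h2 : ((u (-j + j) : ℝ) : ℂ) = 0 := h1
    rw [neg_add_cancel, hu0] at h2
    simp at h2
  · intro n
    have hz : (stdMap lam ^ n) ((x j : Real.Angle), (x (j - 1) : Real.Angle)) =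
        ((x (n + j) : Real.Angle), (x (n - 1 + j) : Real.Angle)) := by
      have h1 := stdMap_zpow (x := fun n => x (n + j)) (k := fun n => k (n + j)) (lam := lam) (by
        intro n
        have h2 := hx (n + j)
        have e1 : n + 1 + j = n + j + 1 := by ring
        have e2 : n - 1 + j = n + j - 1 := by ring
        rw [e1, e2]
        exact h2) n
      have e3 : (0 : ℤ) + j = j := zero_add j
      have e4 : (-1 : ℤ) + j = j - 1 := by ring
      rw [e3, e4] at h1
      exact h1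
    rw [hz]
    show (u (n + 1 + j) : ℂ) - 2 * (u (n + j) : ℂ) + (u (n - 1 + j) : ℂ) +
      ((lam * (x (n + j) : Real.Angle).cos : ℝ) : ℂ) * (u (n + j) : ℂ) =
      (E : ℂ) * (u (n + j) : ℂ)
    rw [Real.Angle.cos_coe]
    have e1 : n + 1 + j = n + j + 1 := by ring
    have e2 : n - 1 + j = n + j - 1 := by ring
    rw [e1, e2]
    exact_mod_cast hu (n + j)

/-- the distance on the circle of numbers that differ by less than `2 pi - 2 h` -/
theorem abs_le_angle {h t : ℝ} (h0 : 0 < h) (h1 : h ≤ Real.pi)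
    (ht : |t| ≤ 2 * Real.pi - 2 * h) : h * |t| ≤ Real.pi * ‖(t : Real.Angle)‖ := by
  have hpi := Real.pi_pos
  have h2 : ‖(t : Real.Angle)‖ = |t - round ((2 * Real.pi)⁻¹ * t) * (2 * Real.pi)| :=
    AddCircle.norm_eq (2 * Real.pi)
  rw [h2]
  obtain ⟨j, hj⟩ : ∃ j : ℤ, j = round ((2 * Real.pi)⁻¹ * t) := ⟨_, rfl⟩
  rw [← hj]
  by_cases hj0 : j = 0
  · rw [hj0]
    simp only [Int.cast_zero, zero_mul, sub_zero]
    gcongr
  · have h3 : (1 : ℝ) ≤ |(j : ℝ)| := by
      have : (1 : ℤ) ≤ |j| := Int.one_le_abs hj0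
      exact_mod_cast this
    have h4 : |(j : ℝ) * (2 * Real.pi)| ≤ |t - j * (2 * Real.pi)| + |t| := by
      have : (j : ℝ) * (2 * Real.pi) = -(t - j * (2 * Real.pi)) + t := by ring
      calc |(j : ℝ) * (2 * Real.pi)| = |-(t - j * (2 * Real.pi)) + t| := by rw [← this]
        _ ≤ _ := by
          refine (abs_add_le _ _).trans ?_
          rw [abs_neg]
    rw [abs_mul, abs_of_pos (by positivity : (0:ℝ) < 2 * Real.pi)] at h4
    have h5 : 2 * h ≤ |t - j * (2 * Real.pi)| := by nlinarith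
    have h6 : |t| ≤ 2 * Real.pi := by linarith
    nlinarith [abs_nonneg t]

end Pool.Agent.MP31f1e8
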