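import Pool.Agent.Lib.MP_31f1e8_mp.Defs

/-!
# MP_31f1e8: eigenvalues with exponentially decaying eigenvectors
-/

namespace Pool.Agent.MP31f1e8

/-- The eigenvalues of `L(x, y)` on `l^2(Z)` (see `pointSpectrum`) that have an eigenvector `u` with
`|u_n| ≤ C exp (-rho |n|)` for some `C` and all `n`. -/
def localizedSpectrum (lam rho : ℝ) (p : Real.Angle × Real.Angle) : Set ℝ :=
  {E | ∃ u : lp (fun _ : ℤ => ℂ) 2, u ≠ 0 ∧
    (∃ C : ℝ, ∀ n : ℤ, ‖u n‖ ≤ C * Real.exp (-(rho * |(n : ℝ)|))) ∧ ∀ n : ℤ,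
    u (n + 1) - 2 * u n + u (n - 1) + ((lam * ((stdMap lam ^ n) p).1.cos : ℝ) : ℂ) * u n =
      (E : ℂ) * u n}

theorem localizedSpectrum_subset (lam rho : ℝ) (p : Real.Angle × Real.Angle) :
    localizedSpectrum lam rho p ⊆ pointSpectrum lam p := by
  rintro E ⟨u, h0, -, h⟩
  exact ⟨u, h0, h⟩

end Pool.Agent.MP31f1e8
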