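import Mathlib

/-!
# MP_31f1e8: digit expansions with weights, and growth of differences
-/

namespace Pool.Agent.MP31f1e8

open Finset

/-- Digit expansions of the numbers of `[0, 1)` with given weights. -/
theorem exists_digit {ι : Type*} [Fintype ι] (p : ι → ℝ) (hp : ∀ c, 0 < p c)
    (hsum : ∑ c, p c = 1) :
    ∃ (dig : ℝ → ι) (nxt : ℝ → ℝ), ∀ y ∈ Set.Ico (0 : ℝ) 1, nxt y ∈ Set.Ico (0 : ℝ) 1 ∧
      ∀ y' ∈ Set.Ico (0 : ℝ) 1, dig y = dig y' → y - y' = p (dig y) * (nxt y - nxt y') := by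
  classical
  obtain ⟨n, e⟩ : ∃ n : ℕ, Nonempty (Fin n ≃ ι) := ⟨_, ⟨(Fintype.equivFin ι).symm⟩⟩
  obtain ⟨e⟩ := e
  obtain ⟨w, hw⟩ : ∃ w : ℕ → ℝ, w = fun i => if h : i < n then p (e ⟨i, h⟩) else 0 := ⟨_, rfl⟩
  have hwe : ∀ i : Fin n, w i = p (e i) := by
    intro i
    rw [hw]
    dsimp only
    rw [dif_pos i.2]
  have hP : ∑ i ∈ range n, w i = 1 := by
    rw [Finset.sum_range, ← hsum, ← Equiv.sum_comp e]
    exact Finset.sum_congr rfl fun i _ => hwe i
  have key : ∀ y ∈ Set.Ico (0 : ℝ) 1, ∃ i : Fin n, ∑ j ∈ range i, w j ≤ y ∧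
      y < ∑ j ∈ range i, w j + p (e i) := by
    intro y hy
    have hex : ∃ m : ℕ, y < ∑ j ∈ range m, w j := ⟨n, by rw [hP]; exact hy.2⟩
    obtain ⟨m, hm, hmin⟩ : ∃ m : ℕ, y < ∑ j ∈ range m, w j ∧
        ∀ m' < m, ¬ y < ∑ j ∈ range m', w j :=
      ⟨Nat.find hex, Nat.find_spec hex, fun m' h => Nat.find_min hex h⟩
    rcases Nat.eq_zero_or_pos m with h0 | h0
    · rw [h0] at hm
      simp only [range_zero, sum_empty] at hm
      linarith [hy.1]
    · obtain ⟨i, rfl⟩ : ∃ i, m = i + 1 := ⟨m - 1, by omega⟩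
      have hi := hmin i (by omega)
      push Not at hi
      rw [Finset.sum_range_succ] at hm
      have hin : i < n := by
        by_contra h
        have : w i = 0 := by
          rw [hw]
          dsimp only
          rw [dif_neg h]
        linarith
      refine ⟨⟨i, hin⟩, hi, ?_⟩
      rw [← hwe]
      exact hm
  have hne : Nonempty ι := by
    by_contra h
    rw [not_nonempty_iff] at h
    simp at hsum
  choose! d hd using fun y (hy : y ∈ Set.Ico (0 : ℝ) 1) => (by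
    obtain ⟨i, hi⟩ := key y hy
    exact ⟨e i, by simpa using hi.1, by simpa using hi.2⟩ :
      ∃ c : ι, ∑ j ∈ range (e.symm c : ℕ), w j ≤ y ∧
        y < ∑ j ∈ range (e.symm c : ℕ), w j + p c)
  refine ⟨d, fun y => (y - ∑ j ∈ range (e.symm (d y) : ℕ), w j) / p (d y), ?_⟩
  intro y hy
  have h1 := hd y hy
  have h2 := hp (d y)
  refine ⟨⟨?_, ?_⟩, ?_⟩
  · exact div_nonneg (by linarith [h1.1]) h2.le
  · rw [div_lt_one h2]
    linarith [h1.2]
  · intro y' hy' hdd
    dsimp only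
    rw [← hdd]
    field_simp
    ring

/-- Numbers with the same first `n` digits are close. -/
theorem digit_close {ι : Type*} {p : ι → ℝ} (hp : ∀ c, 0 < p c) {dig : ℝ → ι} {nxt : ℝ → ℝ}
    (hd : ∀ y ∈ Set.Ico (0 : ℝ) 1, nxt y ∈ Set.Ico (0 : ℝ) 1 ∧
      ∀ y' ∈ Set.Ico (0 : ℝ) 1, dig y = dig y' → y - y' = p (dig y) * (nxt y - nxt y'))
    {y y' : ℝ} (hy : y ∈ Set.Ico (0 : ℝ) 1) (hy' : y' ∈ Set.Ico (0 : ℝ) 1) (n : ℕ)
    (h : ∀ i < n, dig (nxt^[i] y) = dig (nxt^[i] y')) :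
    |y - y'| ≤ ∏ i ∈ range n, p (dig (nxt^[i] y)) := by
  have hm : ∀ (z : ℝ), z ∈ Set.Ico (0 : ℝ) 1 → ∀ i, nxt^[i] z ∈ Set.Ico (0 : ℝ) 1 := by
    intro z hz i
    induction i with
    | zero => simpa using hz
    | succ i ih =>
      rw [Function.iterate_succ_apply']
      exact (hd _ ih).1
  have key : ∀ m ≤ n, y - y' = (∏ i ∈ range m, p (dig (nxt^[i] y))) *
      (nxt^[m] y - nxt^[m] y') := by
    intro m
    induction m with
    | zero => simp
    | succ m ih =>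
      intro hmn
      rw [ih (by omega), prod_range_succ, (hd _ (hm y hy m)).2 _ (hm y' hy' m) (h m (by omega)),
        Function.iterate_succ_apply', Function.iterate_succ_apply']
      ring
  rw [key n le_rfl, abs_mul, abs_of_nonneg (prod_nonneg fun i _ => (hp _).le)]
  refine mul_le_of_le_one_right (prod_nonneg fun i _ => (hp _).le) ?_
  have h1 := hm y hy n
  have h2 := hm y' hy' n
  rw [abs_le]
  constructor <;> linarith [h1.1, h1.2, h2.1, h2.2]

/-- Growth of the solutions of a second-order difference inequality. -/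
theorem growth (δ M : ℕ → ℝ) (R : ℝ) (n : ℕ) (h0 : δ 0 ≤ R) (h1 : δ 1 ≤ R) (hR : 0 ≤ R)
    (hM : ∀ i < n, 0 ≤ M i) (hrec : ∀ i < n, δ (i + 2) ≤ M i * δ (i + 1) + δ i) :
    δ n ≤ R * ∏ i ∈ range n, (M i + 1) ∧ δ (n + 1) ≤ R * ∏ i ∈ range n, (M i + 1) := by
  have key : ∀ m ≤ n, δ m ≤ R * ∏ i ∈ range m, (M i + 1) ∧
      δ (m + 1) ≤ R * ∏ i ∈ range m, (M i + 1) := by
    intro m
    induction m with
    | zero => simp [h0, h1]
    | succ m ih =>
      intro hmn
      obtain ⟨h2, h3⟩ := ih (by omega)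
      have h4 := hM m (by omega)
      have h5 := hrec m (by omega)
      have h6 : 0 ≤ ∏ i ∈ range m, (M i + 1) :=
        prod_nonneg fun i hi => by
          have := hM i (by rw [Finset.mem_range] at hi; omega)
          linarith
      have h7 : 0 ≤ R * ∏ i ∈ range m, (M i + 1) := mul_nonneg hR h6
      rw [prod_range_succ]
      constructor
      · nlinarith [mul_nonneg h7 h4]
      · nlinarith [mul_le_mul_of_nonneg_left h3 h4]
  exact key n le_rfl

end Pool.Agent.MP31f1e8
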