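import Pool.Agent.Lib.MP_31f1e8_mp.Defs
import Pool.Agent.Lib.MP_31f1e8_mp.Chain

/-!
# MP_31f1e8: the dimension bound from a family of full branches
-/

namespace Pool.Agent.MP31f1e8

open Finset
open scoped NNReal ENNReal

/-- facts on the parameter -/
theorem param {lam : ℝ} (hlam : 1600 ≤ lam) : 40 ≤ √lam ∧ √lam ^ 2 = lam ∧ 0 < 4 / √lam ∧
    4 / √lam ≤ 1 / 10 ∧ 0 < 8 / lam ∧ 8 / lam ≤ 4 / √lam ∧ 8 / lam ≤ 1 / 200 := by
  have h1 : 40 ≤ √lam := by
    apply Real.le_sqrt_of_sq_le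
    norm_num
    exact hlam
  have h2 : √lam ^ 2 = lam := Real.sq_sqrt (by linarith)
  refine ⟨h1, h2, by positivity, ?_, by positivity, ?_, ?_⟩
  · rw [div_le_div_iff₀ (by linarith) (by norm_num)]
    linarith
  · rw [div_le_div_iff₀ (by linarith) (by linarith)]
    nlinarith
  · rw [div_le_div_iff₀ (by linarith) (by norm_num)]
    linarith

/-- the potential at the central site -/
theorem cos_center {lam x : ℝ} (hlam : 1600 ≤ lam)
    (hx : x ∈ Set.Icc (Real.pi - 8 / lam) (Real.pi + 8 / lam)) :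
    lam * Real.cos x ≤ -lam + 1 := by
  have h1 : |x - Real.pi| ≤ 8 / lam := by
    rw [abs_le]
    constructor <;> linarith [hx.1, hx.2]
  have h2 : Real.cos x = -Real.cos (x - Real.pi) := by
    rw [Real.cos_sub_pi]
    ring
  have h3 := Real.one_sub_sq_div_two_le_cos (x := x - Real.pi)
  have h4 : (x - Real.pi) ^ 2 ≤ (8 / lam) ^ 2 := sq_le_sq' (by linarith [(abs_le.1 h1).1])
    (abs_le.1 h1).2
  have h5 : lam * (8 / lam) ^ 2 ≤ 1 / 10 := by
    have : lam * (8 / lam) ^ 2 = 64 / lam := by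
      have : lam ≠ 0 := by linarith
      field_simp
      norm_num
    rw [this, div_le_div_iff₀ (by linarith) (by norm_num)]
    linarith
  rw [h2]
  nlinarith

/-- the potential at the other sites -/
theorem cos_other {lam x : ℝ} (hlam : 1600 ≤ lam) (hx : |x| ≤ Real.pi - 4 / √lam) :
    -lam + 7 ≤ lam * Real.cos x := by
  obtain ⟨h1, h2, h3, h4, -, -, -⟩ := param hlam
  have hpi := Real.pi_gt_three
  have h5 : Real.cos (Real.pi - 4 / √lam) ≤ Real.cos |x| :=
    Real.cos_le_cos_of_nonneg_of_le_pi (abs_nonneg _) (by linarith) hx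
  rw [Real.cos_abs, Real.cos_pi_sub] at h5
  have h6 := Real.cos_bound (x := 4 / √lam) (by rw [abs_of_pos h3]; linarith)
  rw [abs_le] at h6
  have h7 := h6.2
  rw [abs_of_pos h3] at h7
  have h8 : lam * (4 / √lam) ^ 2 = 16 := by
    rw [← h2]
    have : √lam ≠ 0 := by linarith
    rw [Real.sqrt_sq (by linarith)]
    field_simp
    norm_num
  have h9 : lam * (4 / √lam) ^ 4 ≤ 1 := by
    have : lam * (4 / √lam) ^ 4 = 16 * (4 / √lam) ^ 2 := by rw [← h8]; ring
    rw [this]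
    nlinarith
  nlinarith

/-- the central branch covers a full period -/
theorem F_center {lam : ℝ} (hlam : 1600 ≤ lam) :
    F lam (Real.pi + 8 / lam) ≤ 0 ∧ 4 * Real.pi ≤ F lam (Real.pi - 8 / lam) := by
  obtain ⟨-, -, -, -, h1, -, h2⟩ := param hlam
  have hpi := Real.pi_lt_d2
  have h3 := Real.sin_gt_sub_cube h1
  have h4 : lam * (8 / lam) = 8 := by
    have : lam ≠ 0 := by linarith
    field_simp
  have h5 : lam * (8 / lam) ^ 3 ≤ 1 := by
    have : lam * (8 / lam) ^ 3 = 8 * (8 / lam) ^ 2 := by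
      calc lam * (8 / lam) ^ 3 = (lam * (8 / lam)) * (8 / lam) ^ 2 := by ring
        _ = _ := by rw [h4]
    rw [this]
    nlinarith
  have h6 : 8 - 1 / 6 ≤ lam * Real.sin (8 / lam) := by
    have : lam * (8 / lam - (8 / lam) ^ 3 / 6) ≤ lam * Real.sin (8 / lam) :=
      mul_le_mul_of_nonneg_left h3.le (by linarith)
    nlinarith
  unfold F
  have h7 : Real.sin (Real.pi + 8 / lam) = -Real.sin (8 / lam) := by
    rw [add_comm, Real.sin_add_pi]
  rw [h7, Real.sin_pi_sub]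
  constructor <;> linarith

theorem dim_bound {lam γ s : ℝ} {ι : Type} [Fintype ι] {a b : ι → ℝ} {k : ι → ℤ} {M : ι → ℝ}
    (hlam : 1600 ≤ lam) (hγ : 0 < γ) (hs : 0 < s) (hab : ∀ c, a c ≤ b c)
    (hJ : ∀ c, -(Real.pi - 4 / √lam) ≤ a c ∧ b c ≤ Real.pi - 4 / √lam)
    (hder : ∀ c, ∀ x ∈ Set.Icc (a c) (b c), 3 ≤ |2 + lam * Real.cos x| ∧
      |2 + lam * Real.cos x| ≤ M c)
    (hcov : ∀ c, (F lam (a c) ≤ 2 * Real.pi * k c - 2 * Real.pi ∧
        2 * Real.pi * k c + 2 * Real.pi ≤ F lam (b c)) ∨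
      (F lam (b c) ≤ 2 * Real.pi * k c - 2 * Real.pi ∧
        2 * Real.pi * k c + 2 * Real.pi ≤ F lam (a c)))
    (hsep : ∀ c c', c ≠ c' → k c ≠ k c' ∨ ∀ x ∈ Set.Icc (a c) (b c), ∀ x' ∈ Set.Icc (a c') (b c'),
      γ ≤ |x - x'|)
    (hsum : 1 ≤ ∑ c, (M c + 1) ^ (-s)) (c1 c2 : ι) :
    ENNReal.ofReal (2 * s) ≤ dimH {p : Real.Angle × Real.Angle |
      (pointSpectrum lam p).Nonempty ∧ ∃ x2 ∈ Set.Icc (a c2) (b c2), ∃ x1 ∈ Set.Icc (a c1) (b c1),
        p = ((x2 : Real.Angle), (x1 : Real.Angle))} := by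
  classical
  obtain ⟨q1, q2, q3, q4, q5, q6, q7⟩ := param hlam
  have hpi := Real.pi_gt_three
  obtain ⟨h, hhd⟩ : ∃ h : ℝ, h = 4 / √lam := ⟨_, rfl⟩
  rw [← hhd] at q3 q4 q6
  have hM : ∀ c, 3 ≤ M c := fun c =>
    (hder c (a c) ⟨le_rfl, hab c⟩).1.trans (hder c (a c) ⟨le_rfl, hab c⟩).2
  -- the branches
  have hG : ∀ c, ∃ G : ℝ → ℝ, (∀ t, G t ∈ Set.Icc (a c) (b c)) ∧
      (∀ t t', |G t - G t'| ≤ (1 / 3) * |t - t'|) ∧
      ∀ t, |t| ≤ 2 * Real.pi → F lam (G t) = t + 2 * Real.pi * k c := by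
    intro c
    refine exists_branch (F lam) (F_continuous lam) (hab c) (by positivity) ?_ (hcov c)
    intro x hx y hy
    obtain ⟨ξ, hξ, h1⟩ := F_mvt lam hx hy
    rw [h1, abs_mul]
    exact mul_le_mul_of_nonneg_right (hder c ξ hξ).1 (abs_nonneg _)
  choose G hG1 hG2 hG3 using hG
  obtain ⟨G0, h01, h02, h03⟩ : ∃ G : ℝ → ℝ,
      (∀ t, G t ∈ Set.Icc (Real.pi - 8 / lam) (Real.pi + 8 / lam)) ∧
      (∀ t t', |G t - G t'| ≤ (1 / 3) * |t - t'|) ∧
      ∀ t, |t| ≤ 2 * Real.pi → F lam (G t) = t + 2 * Real.pi := by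
    refine exists_branch (F lam) (F_continuous lam) (by linarith) (by positivity) ?_ (Or.inr ?_)
    · intro x hx y hy
      obtain ⟨ξ, hξ, h1⟩ := F_mvt lam hx hy
      rw [h1, abs_mul]
      refine mul_le_mul_of_nonneg_right ?_ (abs_nonneg _)
      have h2 := cos_center hlam hξ
      rw [abs_of_neg (by linarith)]
      linarith
    · have := F_center hlam
      constructor <;> linarith [this.1, this.2]
  -- the digits
  obtain ⟨Z, hZ⟩ : ∃ Z : ℝ, Z = ∑ c, (M c + 1) ^ (-s) := ⟨_, rfl⟩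
  rw [← hZ] at hsum
  obtain ⟨p, hpd⟩ : ∃ p : ι → ℝ, p = fun c => (M c + 1) ^ (-s) / Z := ⟨_, rfl⟩
  have hw0 : ∀ c, 0 < (M c + 1) ^ (-s) := fun c =>
    Real.rpow_pos_of_pos (by linarith [hM c]) _
  have hp0 : ∀ c, 0 < p c := by
    intro c
    rw [hpd]
    exact div_pos (hw0 c) (by linarith)
  have hp1 : ∀ c, p c ≤ (M c + 1) ^ (-s) := by
    intro c
    rw [hpd]
    exact div_le_self (hw0 c).le hsum
  have hps : ∑ c, p c = 1 := by
    rw [hpd, ← Finset.sum_div, ← hZ, div_self (by linarith)]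
  obtain ⟨dig, nxt, hd⟩ := exists_digit p hp0 hps
  -- the orbits
  have horb : ∀ y : ℝ × ℝ, ∃ x : ℤ → ℝ,
      x 0 ∈ Set.Icc (Real.pi - 8 / lam) (Real.pi + 8 / lam) ∧
      x 1 ∈ Set.Icc (a c1) (b c1) ∧ x 2 ∈ Set.Icc (a c2) (b c2) ∧
      (∀ i : ℕ, x ((i + 3 : ℕ) : ℤ) ∈ Set.Icc (a (dig (nxt^[i] y.1))) (b (dig (nxt^[i] y.1)))) ∧
      (∀ i : ℕ, x (-((i + 1 : ℕ) : ℤ)) ∈
        Set.Icc (a (dig (nxt^[i] y.2))) (b (dig (nxt^[i] y.2)))) ∧
      x 1 + x (-1) = F lam (x 0) - 2 * Real.pi ∧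
      x 2 + x 0 = F lam (x 1) - 2 * Real.pi * k c1 ∧
      x 3 + x 1 = F lam (x 2) - 2 * Real.pi * k c2 ∧
      (∀ i : ℕ, x ((i + 4 : ℕ) : ℤ) + x ((i + 2 : ℕ) : ℤ) =
        F lam (x ((i + 3 : ℕ) : ℤ)) - 2 * Real.pi * k (dig (nxt^[i] y.1))) ∧
      (∀ i : ℕ, x (-((i + 2 : ℕ) : ℤ)) + x (-(i : ℤ)) =
        F lam (x (-((i + 1 : ℕ) : ℤ))) - 2 * Real.pi * k (dig (nxt^[i] y.2))) ∧
      (pointSpectrum lam ((x 2 : Real.Angle), (x 1 : Real.Angle))).Nonempty := by
    intro y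
    obtain ⟨cd, hcd⟩ : ∃ cd : ℤ → ι, cd = fun n =>
      if 2 < n then dig (nxt^[(n - 3).toNat] y.1) else
      if n = 2 then c2 else if n = 1 then c1 else dig (nxt^[(-n - 1).toNat] y.2) := ⟨_, rfl⟩
    have hcd1 : ∀ i : ℕ, cd ((i + 3 : ℕ) : ℤ) = dig (nxt^[i] y.1) := by
      intro i
      rw [hcd]
      dsimp only
      rw [if_pos (by omega)]
      have : (((i + 3 : ℕ) : ℤ) - 3).toNat = i := by omega
      rw [this]
    have hcd2 : ∀ i : ℕ, cd (-((i + 1 : ℕ) : ℤ)) = dig (nxt^[i] y.2) := by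
      intro i
      rw [hcd]
      dsimp only
      rw [if_neg (by omega), if_neg (by omega), if_neg (by omega)]
      have : (-(-((i + 1 : ℕ) : ℤ)) - 1).toNat = i := by omega
      rw [this]
    have hcd3 : cd 1 = c1 := by
      rw [hcd]
      simp
    have hcd4 : cd 2 = c2 := by
      rw [hcd]
      simp
    obtain ⟨x, hx⟩ := exists_orbit (fun n => if n = 0 then G0 else G (cd n)) (by
        intro n t t'
        split_ifs
        · exact h02 t t'
        · exact hG2 _ t t') (by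
        intro n t
        have hpi' := Real.pi_lt_d2
        split_ifs
        · have h1 := h01 t
          rw [abs_le]
          constructor <;> linarith [h1.1, h1.2]
        · have h1 := hG1 (cd n) t
          have h2 := hJ (cd n)
          rw [← hhd] at h2
          rw [abs_le]
          constructor <;> linarith [h1.1, h1.2, h2.1, h2.2])
    have hx0 : x 0 = G0 (x (0 + 1) + x (0 - 1)) := by
      have := hx 0
      rw [if_pos rfl] at this
      exact this
    have hxn : ∀ n, n ≠ 0 → x n = G (cd n) (x (n + 1) + x (n - 1)) := by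
      intro n hn
      have := hx n
      rw [if_neg hn] at this
      exact this
    have hm0 : x 0 ∈ Set.Icc (Real.pi - 8 / lam) (Real.pi + 8 / lam) := by
      rw [hx0]
      exact h01 _
    have hmn : ∀ n, n ≠ 0 → x n ∈ Set.Icc (a (cd n)) (b (cd n)) := by
      intro n hn
      have := hG1 (cd n) (x (n + 1) + x (n - 1))
      rw [← hxn n hn] at this
      exact this
    have hbn : ∀ n, n ≠ 0 → |x n| ≤ Real.pi - h := by
      intro n hn
      have h1 := hmn n hn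
      have h2 := hJ (cd n)
      rw [← hhd] at h2
      rw [abs_le]
      constructor <;> linarith [h1.1, h1.2, h2.1, h2.2]
    have hb0 : ∀ n, |x n| ≤ Real.pi + 8 / lam := by
      intro n
      by_cases hn : n = 0
      · rw [hn, abs_le]
        constructor <;> linarith [hm0.1, hm0.2]
      · linarith [hbn n hn]
    have hsb : ∀ n, |x (n + 1) + x (n - 1)| ≤ 2 * Real.pi := by
      intro n
      refine (abs_add_le _ _).trans ?_
      by_cases hn : n + 1 = 0
      · linarith [hb0 (n + 1), hbn (n - 1) (by omega)]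
      · linarith [hb0 (n - 1), hbn (n + 1) hn]
    have hr0 : x 1 + x (-1) = F lam (x 0) - 2 * Real.pi := by
      have h1 := h03 _ (hsb 0)
      rw [← hx0] at h1
      simp only [zero_add, zero_sub] at h1
      linarith
    have hrn : ∀ n, n ≠ 0 → x (n + 1) + x (n - 1) = F lam (x n) - 2 * Real.pi * k (cd n) := by
      intro n hn
      have h1 := hG3 (cd n) _ (hsb n)
      rw [← hxn n hn] at h1
      linarith
    refine ⟨x, hm0, ?_, ?_, ?_, ?_, hr0, ?_, ?_, ?_, ?_, ?_⟩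
    · rw [← hcd3]
      exact hmn _ (by norm_num)
    · rw [← hcd4]
      exact hmn _ (by norm_num)
    · intro i
      rw [← hcd1 i]
      exact hmn _ (by omega)
    · intro i
      rw [← hcd2 i]
      exact hmn _ (by omega)
    · have h1 := hrn 1 (by norm_num)
      rw [hcd3] at h1
      norm_num at h1
      exact h1
    · have h1 := hrn 2 (by norm_num)
      rw [hcd4] at h1
      norm_num at h1
      exact h1
    · intro i
      rw [← hcd1 i, ← hrn _ (by omega)]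
      have e1 : ((i + 3 : ℕ) : ℤ) + 1 = ((i + 4 : ℕ) : ℤ) := by push_cast; ring
      have e2 : ((i + 3 : ℕ) : ℤ) - 1 = ((i + 2 : ℕ) : ℤ) := by push_cast; ring
      rw [e1, e2]
    · intro i
      rw [← hcd2 i, ← hrn _ (by omega)]
      have e1 : -((i + 1 : ℕ) : ℤ) + 1 = -(i : ℤ) := by push_cast; ring
      have e2 : -((i + 1 : ℕ) : ℤ) - 1 = -((i + 2 : ℕ) : ℤ) := by push_cast; ring
      rw [e1, e2]
      ring
    · refine mem_of_orbit (k := fun n => if n = 0 then 1 else k (cd n)) ?_ ?_ 2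
      · intro n
        by_cases hn : n = 0
        · subst hn
          simp only [if_true, zero_add, zero_sub, Int.cast_one, mul_one]
          rw [hr0]
          unfold F
          ring
        · rw [if_neg hn, hrn n hn]
          unfold F
          ring
      · intro n hn
        have h1 := cos_center hlam hm0
        have h2 := cos_other hlam (x := x n) (by rw [← hhd]; exact hbn n hn)
        linarith
  choose x hx0 hy1 hy2 hx1 hx2 hx3 hy3 hy4 hx4 hx5 hx6 using horb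
  obtain ⟨P, hP⟩ : ∃ P : ℝ × ℝ → Real.Angle × Real.Angle,
    P = fun y => ((x y 2 : Real.Angle), (x y 1 : Real.Angle)) := ⟨_, rfl⟩
  obtain ⟨Y, hY⟩ : ∃ Y : Set (ℝ × ℝ), Y = Set.Ico 0 1 ×ˢ Set.Ico 0 1 := ⟨_, rfl⟩
  obtain ⟨C, hC⟩ : ∃ C : ℝ, C = (lam + 3) ^ 2 * (Real.pi / h) / min γ (2 * h / (lam + 3)) :=
    ⟨_, rfl⟩
  have hC0 : 0 ≤ C := by
    rw [hC]
    have : 0 < min γ (2 * h / (lam + 3)) := lt_min hγ (by positivity)
    positivity
  -- the main estimate
  have hmain : ∀ y ∈ Y, ∀ y' ∈ Y, dist y y' ≤ (C * dist (P y) (P y')) ^ s := by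
    intro y hy y' hy'
    rw [hY] at hy hy'
    obtain ⟨D, hD⟩ : ∃ D : ℝ, D = dist (P y) (P y') := ⟨_, rfl⟩
    rw [← hD]
    have hD0 : 0 ≤ D := by rw [hD]; exact dist_nonneg
    have hd2 : |x y 2 - x y' 2| ≤ Real.pi / h * D := by
      have h0 := hy2 y
      have h0' := hy2 y'
      have hj := hJ c2
      rw [← hhd] at hj
      have h1 : |x y 2 - x y' 2| ≤ 2 * Real.pi - 2 * h := by
        rw [abs_le]
        constructor <;> linarith [h0.1, h0.2, h0'.1, h0'.2, hj.1, hj.2]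
      have h2 := abs_le_angle q3 (by linarith) h1
      have h3 : ‖((x y 2 - x y' 2 : ℝ) : Real.Angle)‖ ≤ D := by
        rw [Real.Angle.coe_sub, ← dist_eq_norm, hD, hP]
        exact le_max_left _ _
      rw [div_mul_eq_mul_div, le_div_iff₀ q3]
      nlinarith
    have hd1 : |x y 1 - x y' 1| ≤ Real.pi / h * D := by
      have h0 := hy1 y
      have h0' := hy1 y'
      have hj := hJ c1
      rw [← hhd] at hj
      have h1 : |x y 1 - x y' 1| ≤ 2 * Real.pi - 2 * h := by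
        rw [abs_le]
        constructor <;> linarith [h0.1, h0.2, h0'.1, h0'.2, hj.1, hj.2]
      have h2 := abs_le_angle q3 (by linarith) h1
      have h3 : ‖((x y 1 - x y' 1 : ℝ) : Real.Angle)‖ ≤ D := by
        rw [Real.Angle.coe_sub, ← dist_eq_norm, hD, hP]
        exact le_max_right _ _
      rw [div_mul_eq_mul_div, le_div_iff₀ q3]
      nlinarith
    obtain ⟨r, hr⟩ : ∃ r : ℝ, r = Real.pi / h * D := ⟨_, rfl⟩
    have hr0 : 0 ≤ r := by rw [hr]; positivity
    rw [← hr] at hd1 hd2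
    obtain ⟨R, hR⟩ : ∃ R : ℝ, R = (lam + 3) ^ 2 * r := ⟨_, rfl⟩
    have hR0 : 0 ≤ R := by rw [hR]; positivity
    have hRr1 : (lam + 3) * r ≤ R := by
      rw [hR]
      nlinarith [mul_nonneg (by linarith : 0 ≤ lam + 3) hr0]
    have hRr : r ≤ R := by nlinarith
    have hCR : C * D = R / min γ (2 * h / (lam + 3)) := by
      rw [hC, hR, hr]
      ring
    rw [hCR]
    have step : ∀ {u v w u' v' w' t t' : ℝ}, u + w = F lam v - t → u' + w' = F lam v' - t →
        t = t' → |u - u'| ≤ (lam + 2) * |v - v'| + |w - w'| := by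
      intro u v w u' v' w' t t' h1 h2 _
      have h3 := F_lip (lam := lam) (by linarith) v v'
      have h4 : u - u' = (F lam v - F lam v') - (w - w') := by linarith
      rw [h4]
      refine (abs_sub _ _).trans ?_
      linarith
    have hd3 : |x y 3 - x y' 3| ≤ (lam + 3) * r := by
      have h1 := step (hy4 y) (hy4 y') rfl
      have h5 : (lam + 2) * |x y 2 - x y' 2| ≤ (lam + 2) * r :=
        mul_le_mul_of_nonneg_left hd2 (by linarith)
      linarith
    have hd0 : |x y 0 - x y' 0| ≤ (lam + 3) * r := by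
      have h1 := step (by linarith [hy3 y] : x y 0 + x y 2 = F lam (x y 1) - 2 * Real.pi * k c1)
        (by linarith [hy3 y'] : x y' 0 + x y' 2 = F lam (x y' 1) - 2 * Real.pi * k c1) rfl
      have h5 : (lam + 2) * |x y 1 - x y' 1| ≤ (lam + 2) * r :=
        mul_le_mul_of_nonneg_left hd1 (by linarith)
      linarith
    have hdm : |x y (-1) - x y' (-1)| ≤ R := by
      have h1 := step (by linarith [hx3 y] : x y (-1) + x y 1 = F lam (x y 0) - 2 * Real.pi)
        (by linarith [hx3 y'] : x y' (-1) + x y' 1 = F lam (x y' 0) - 2 * Real.pi) rfl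
      have h5 : (lam + 2) * |x y 0 - x y' 0| ≤ (lam + 2) * ((lam + 3) * r) :=
        mul_le_mul_of_nonneg_left hd0 (by linarith)
      rw [hR]
      nlinarith
    have hforw : |y.1 - y'.1| ≤ (R / min γ (2 * h / (lam + 3))) ^ s := by
      refine chain_close (X := fun i : ℕ => x y ((i + 2 : ℕ) : ℤ))
        (X' := fun i : ℕ => x y' ((i + 2 : ℕ) : ℤ))
        (by linarith) q3 hγ hs (by rw [hhd]; exact hJ) hder hM hsep hp0 hp1 hd hy.1 hy'.1
        (hx1 y) (hx1 y') (hx4 y) (hx4 y') hR0 ?_ ?_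
      · simpa using hd2.trans hRr
      · simpa using hd3.trans hRr1
    have hback : |y.2 - y'.2| ≤ (R / min γ (2 * h / (lam + 3))) ^ s := by
      refine chain_close (X := fun i : ℕ => x y (-(i : ℤ))) (X' := fun i : ℕ => x y' (-(i : ℤ)))
        (by linarith) q3 hγ hs (by rw [hhd]; exact hJ) hder hM hsep hp0 hp1 hd hy.2 hy'.2
        (hx2 y) (hx2 y') (hx5 y) (hx5 y') hR0 ?_ ?_
      · simpa using hd0.trans hRr1
      · simpa using hdm
    exact max_le hforw hback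
  -- the inverse of the coding map
  obtain ⟨Q, hQ⟩ : ∃ Q : Real.Angle × Real.Angle → ℝ × ℝ, Q = Function.invFunOn P Y := ⟨_, rfl⟩
  have hQ1 : ∀ z ∈ P '' Y, Q z ∈ Y ∧ P (Q z) = z := by
    rintro z ⟨y, hy, rfl⟩
    rw [hQ]
    exact ⟨Function.invFunOn_mem ⟨y, hy, rfl⟩, Function.invFunOn_eq ⟨y, hy, rfl⟩⟩
  have hQ2 : Y ⊆ Q '' (P '' Y) := by
    intro y hy
    refine ⟨P y, ⟨y, hy, rfl⟩, ?_⟩
    obtain ⟨h1, h2⟩ := hQ1 (P y) ⟨y, hy, rfl⟩
    have h3 := hmain _ h1 _ hy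
    rw [h2, dist_self, mul_zero, Real.zero_rpow hs.ne'] at h3
    exact dist_le_zero.1 h3
  obtain ⟨s', hs'⟩ : ∃ s' : ℝ≥0, (s' : ℝ) = s := ⟨⟨s, hs.le⟩, rfl⟩
  obtain ⟨C', hC'⟩ : ∃ C' : ℝ≥0, (C' : ℝ) = C ^ s := ⟨⟨C ^ s, by positivity⟩, rfl⟩
  have hs0' : 0 < s' := by
    have : (0 : ℝ) < (s' : ℝ) := by rw [hs']; exact hs
    exact_mod_cast this
  have hhol : HolderOnWith C' s' Q (P '' Y) := by
    intro z hz z' hz'
    obtain ⟨h1, h2⟩ := hQ1 z hz
    obtain ⟨h3, h4⟩ := hQ1 z' hz'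
    have h5 := hmain _ h1 _ h3
    rw [h2, h4, Real.mul_rpow hC0 dist_nonneg] at h5
    rw [edist_dist, edist_dist, hs']
    calc ENNReal.ofReal (dist (Q z) (Q z')) ≤ ENNReal.ofReal (C ^ s * dist z z' ^ s) :=
          ENNReal.ofReal_le_ofReal h5
      _ = ENNReal.ofReal (C ^ s) * ENNReal.ofReal (dist z z') ^ s := by
          rw [ENNReal.ofReal_mul (by positivity), ENNReal.ofReal_rpow_of_nonneg dist_nonneg hs.le]
      _ = _ := by
          rw [← hC', ENNReal.ofReal_coe_nnreal]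
  have hdY : dimH Y = 2 := by
    have h1 : (interior Y).Nonempty := by
      refine ⟨(1 / 2, 1 / 2), ?_⟩
      rw [hY, interior_prod_eq, interior_Ico]
      refine ⟨⟨?_, ?_⟩, ⟨?_, ?_⟩⟩ <;> norm_num
    rw [Real.dimH_of_nonempty_interior h1]
    simp
  have h1 : dimH (Q '' (P '' Y)) ≤ dimH (P '' Y) / (s' : ℝ≥0∞) :=
    hhol.dimH_image_le hs0'
  have h2 : (2 : ℝ≥0∞) ≤ dimH (P '' Y) / (s' : ℝ≥0∞) := by
    rw [← hdY]
    exact (dimH_mono hQ2).trans h1
  have h3 : 2 * (s' : ℝ≥0∞) ≤ dimH (P '' Y) :=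
    ENNReal.mul_le_of_le_div h2
  have h4 : P '' Y ⊆ {p : Real.Angle × Real.Angle | (pointSpectrum lam p).Nonempty ∧
      ∃ x2 ∈ Set.Icc (a c2) (b c2), ∃ x1 ∈ Set.Icc (a c1) (b c1),
        p = ((x2 : Real.Angle), (x1 : Real.Angle))} := by
    rintro z ⟨y, -, rfl⟩
    rw [hP]
    exact ⟨hx6 y, x y 2, hy2 y, x y 1, hy1 y, rfl⟩
  refine le_trans (le_of_eq ?_) (h3.trans (dimH_mono h4))
  rw [ENNReal.ofReal_mul (by norm_num), ← hs', ENNReal.ofReal_coe_nnreal]
  simp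

end Pool.Agent.MP31f1e8
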