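import Mathlib

/-!
# MP_31f1e8: fixed points on bounded two-sided sequences

* `exists_fixed`: a sup-norm contraction of bounded sequences has a fixed point;
* `exists_eigvec`: a discrete Schrodinger operator on `ℤ` whose potential at the site `0` is lower by
  `6` than at all other sites has an exponentially localised eigenvector;
* `exists_orbit`: solutions of `x n = G n (x (n + 1) + x (n - 1))`;
* `exists_branch`: inverse branches of an expanding function.
-/

namespace Pool.Agent.MP31f1e8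

open scoped BoundedContinuousFunction

/-- the truncation of `s` to `[-r, r]` -/
noncomputable def cl (r s : ℝ) : ℝ := max (-r) (min r s)

theorem cl_lip (r s s' : ℝ) : |cl r s - cl r s'| ≤ |s - s'| := by
  unfold cl
  rw [max_comm (-r), max_comm (-r), min_comm r, min_comm r]
  refine (abs_max_sub_max_le_abs _ _ _).trans ?_
  refine (abs_min_sub_min_le_max _ _ _ _).trans ?_
  simp

theorem cl_abs {r : ℝ} (hr : 0 ≤ r) (s : ℝ) : |cl r s| ≤ r := by
  unfold cl
  rw [abs_le]
  exact ⟨le_max_left _ _, max_le (by linarith) (min_le_left _ _)⟩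

theorem cl_eq {r s : ℝ} (hs : |s| ≤ r) : cl r s = s := by
  rw [abs_le] at hs
  unfold cl
  rw [min_eq_right hs.2, max_eq_right hs.1]

/-- A sup-norm contraction of bounded sequences has a fixed point. -/
theorem exists_fixed (Φ : (ℤ → ℝ) → (ℤ → ℝ)) (B q : ℝ) (hq0 : 0 ≤ q) (hq : q < 1)
    (hB : ∀ x n, |Φ x n| ≤ B)
    (hL : ∀ x y : ℤ → ℝ, ∀ D : ℝ, (∀ n, |x n - y n| ≤ D) → ∀ n, |Φ x n - Φ y n| ≤ q * D) :
    ∃ x : ℤ → ℝ, Φ x = x := by
  let Ψ : (ℤ →ᵇ ℝ) → (ℤ →ᵇ ℝ) := fun x =>
    BoundedContinuousFunction.ofNormedAddCommGroupDiscrete (Φ x) B (hB x)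
  have hΨ : ∀ (x : ℤ →ᵇ ℝ) n, Ψ x n = Φ x n := fun x n => rfl
  have hc : ContractingWith ⟨q, hq0⟩ Ψ := by
    refine ⟨by exact_mod_cast hq, ?_⟩
    refine LipschitzWith.of_dist_le_mul fun x y => ?_
    rw [BoundedContinuousFunction.dist_le (by positivity)]
    intro n
    rw [hΨ, hΨ, Real.dist_eq]
    refine hL x y (dist x y) (fun m => ?_) n
    rw [← Real.dist_eq]
    exact BoundedContinuousFunction.dist_coe_le_dist m
  obtain ⟨z, hz⟩ : ∃ z : ℤ →ᵇ ℝ, Ψ z = z :=
    ⟨ContractingWith.fixedPoint Ψ hc, hc.fixedPoint_isFixedPt⟩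
  refine ⟨z, ?_⟩
  funext n
  have := DFunLike.congr_fun hz n
  rw [hΨ] at this
  exact this

/-- Solutions of `x n = G n (x (n + 1) + x (n - 1))`. -/
theorem exists_orbit (G : ℤ → ℝ → ℝ) (hG : ∀ n s s', |G n s - G n s'| ≤ (1 / 3) * |s - s'|)
    (hb : ∀ n s, |G n s| ≤ 4) : ∃ x : ℤ → ℝ, ∀ n, x n = G n (x (n + 1) + x (n - 1)) := by
  obtain ⟨x, hx⟩ := exists_fixed (fun x n => G n (x (n + 1) + x (n - 1))) 4 (2 / 3)
    (by norm_num) (by norm_num) (fun x n => hb n _) (by
      intro x y D hD n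
      refine (hG n _ _).trans ?_
      have h1 := hD (n + 1)
      have h2 := hD (n - 1)
      have h3 : |x (n + 1) + x (n - 1) - (y (n + 1) + y (n - 1))| ≤ 2 * D := by
        have : x (n + 1) + x (n - 1) - (y (n + 1) + y (n - 1)) =
            (x (n + 1) - y (n + 1)) + (x (n - 1) - y (n - 1)) := by ring
        rw [this]
        refine (abs_add_le _ _).trans ?_
        linarith
      linarith)
  exact ⟨x, fun n => (congrFun hx n).symm⟩

/-- Inverse branches of an expanding function. -/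
theorem exists_branch (F : ℝ → ℝ) (hF : Continuous F) {a b v r : ℝ} (hab : a ≤ b) (hr : 0 ≤ r)
    (hexp : ∀ x ∈ Set.Icc a b, ∀ y ∈ Set.Icc a b, 3 * |x - y| ≤ |F x - F y|)
    (hcov : (F a ≤ v - r ∧ v + r ≤ F b) ∨ (F b ≤ v - r ∧ v + r ≤ F a)) :
    ∃ G : ℝ → ℝ, (∀ s, G s ∈ Set.Icc a b) ∧ (∀ s s', |G s - G s'| ≤ (1 / 3) * |s - s'|) ∧
      ∀ s, |s| ≤ r → F (G s) = s + v := by
  have h1 : ∀ s : ℝ, ∃ x ∈ Set.Icc a b, F x = cl r s + v := by
    intro s
    have h0 := cl_abs hr s
    rw [abs_le] at h0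
    have hl : v - r ≤ cl r s + v := by linarith [h0.1]
    have hu : cl r s + v ≤ v + r := by linarith [h0.2]
    rcases hcov with ⟨h2, h3⟩ | ⟨h2, h3⟩
    · have h4 := intermediate_value_Icc hab hF.continuousOn
      obtain ⟨x, hx, hx'⟩ := h4 ⟨h2.trans hl, hu.trans h3⟩
      exact ⟨x, hx, hx'⟩
    · have h4 := intermediate_value_Icc' hab hF.continuousOn
      obtain ⟨x, hx, hx'⟩ := h4 ⟨h2.trans hl, hu.trans h3⟩
      exact ⟨x, hx, hx'⟩
  choose G hG1 hG2 using h1
  refine ⟨G, hG1, ?_, ?_⟩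
  · intro s s'
    have h2 := hexp _ (hG1 s) _ (hG1 s')
    rw [hG2, hG2] at h2
    have h3 : |cl r s + v - (cl r s' + v)| ≤ |s - s'| := by
      have e : cl r s + v - (cl r s' + v) = cl r s - cl r s' := by ring
      rw [e]
      exact cl_lip r s s'
    linarith
  · intro s hs
    rw [hG2, cl_eq hs]

/-- An eigenvector of a Schrodinger operator with a deep well at the site `0`. -/
theorem exists_eigvec (V : ℤ → ℝ) (hV : ∀ n, n ≠ 0 → V 0 + 6 ≤ V n) :
    ∃ E : ℝ, ∃ u : ℤ → ℝ, u 0 = 1 ∧ (∀ n, |u n| ≤ (1 / 2) ^ n.natAbs) ∧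
      ∀ n, u (n + 1) - 2 * u n + u (n - 1) + V n * u n = E * u n := by
  obtain ⟨α, hα⟩ : ∃ α : ℤ → ℝ, α = fun n => if 0 ≤ n then 1 / 2 else 2 := ⟨_, rfl⟩
  obtain ⟨β, hβ⟩ : ∃ β : ℤ → ℝ, β = fun n => if 0 < n then 2 else 1 / 2 := ⟨_, rfl⟩
  have hα0 : ∀ n, 0 ≤ α n := by
    intro n
    rw [hα]
    dsimp only
    split_ifs <;> norm_num
  have hβ0 : ∀ n, 0 ≤ β n := by
    intro n
    rw [hβ]
    dsimp only
    split_ifs <;> norm_num
  have hαβ : ∀ n, n ≠ 0 → α n + β n = 5 / 2 := by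
    intro n hn
    rw [hα, hβ]
    dsimp only
    rcases lt_or_gt_of_ne hn with h | h
    · rw [if_neg (by omega), if_neg (by omega)]
      norm_num
    · rw [if_pos (by omega), if_pos (by omega)]
      norm_num
  -- numerator and denominator
  obtain ⟨Nm, hNm⟩ : ∃ Nm : (ℤ → ℝ) → ℤ → ℝ, Nm = fun w n =>
    α n * cl 1 (w (n + 1)) + β n * cl 1 (w (n - 1)) := ⟨_, rfl⟩
  obtain ⟨Dn, hDn⟩ : ∃ Dn : (ℤ → ℝ) → ℤ → ℝ, Dn = fun w n =>
    V n - V 0 - (cl 1 (w 1) + cl 1 (w (-1))) / 2 := ⟨_, rfl⟩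
  have hNb : ∀ w n, n ≠ 0 → |Nm w n| ≤ 5 / 2 := by
    intro w n hn
    rw [hNm]
    dsimp only
    refine (abs_add_le _ _).trans ?_
    rw [abs_mul, abs_mul, abs_of_nonneg (hα0 n), abs_of_nonneg (hβ0 n), ← hαβ n hn]
    have h1 := cl_abs (zero_le_one) (w (n + 1))
    have h2 := cl_abs (zero_le_one) (w (n - 1))
    nlinarith [hα0 n, hβ0 n, mul_le_mul_of_nonneg_left h1 (hα0 n),
      mul_le_mul_of_nonneg_left h2 (hβ0 n)]
  have hDb : ∀ w n, n ≠ 0 → 5 ≤ Dn w n := by
    intro w n hn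
    rw [hDn]
    dsimp only
    have h1 := cl_abs (zero_le_one) (w 1)
    have h2 := cl_abs (zero_le_one) (w (-1))
    rw [abs_le] at h1 h2
    linarith [hV n hn, h1.2, h2.2]
  have hNl : ∀ w w' : ℤ → ℝ, ∀ D : ℝ, (∀ n, |w n - w' n| ≤ D) → ∀ n, n ≠ 0 →
      |Nm w n - Nm w' n| ≤ 5 / 2 * D := by
    intro w w' D hD n hn
    rw [hNm]
    dsimp only
    have e : α n * cl 1 (w (n + 1)) + β n * cl 1 (w (n - 1)) -
        (α n * cl 1 (w' (n + 1)) + β n * cl 1 (w' (n - 1))) =
        α n * (cl 1 (w (n + 1)) - cl 1 (w' (n + 1))) +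
        β n * (cl 1 (w (n - 1)) - cl 1 (w' (n - 1))) := by ring
    rw [e]
    refine (abs_add_le _ _).trans ?_
    rw [abs_mul, abs_mul, abs_of_nonneg (hα0 n), abs_of_nonneg (hβ0 n), ← hαβ n hn]
    have h1 := (cl_lip 1 (w (n + 1)) (w' (n + 1))).trans (hD _)
    have h2 := (cl_lip 1 (w (n - 1)) (w' (n - 1))).trans (hD _)
    nlinarith [mul_le_mul_of_nonneg_left h1 (hα0 n), mul_le_mul_of_nonneg_left h2 (hβ0 n)]
  have hDl : ∀ w w' : ℤ → ℝ, ∀ D : ℝ, (∀ n, |w n - w' n| ≤ D) → ∀ n,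
      |Dn w n - Dn w' n| ≤ D := by
    intro w w' D hD n
    rw [hDn]
    dsimp only
    have e : V n - V 0 - (cl 1 (w 1) + cl 1 (w (-1))) / 2 -
        (V n - V 0 - (cl 1 (w' 1) + cl 1 (w' (-1))) / 2) =
        -((cl 1 (w 1) - cl 1 (w' 1)) + (cl 1 (w (-1)) - cl 1 (w' (-1)))) / 2 := by ring
    rw [e, abs_div, abs_neg, abs_of_pos (by norm_num : (0:ℝ) < 2), div_le_iff₀ (by norm_num)]
    refine (abs_add_le _ _).trans ?_
    have h1 := (cl_lip 1 (w 1) (w' 1)).trans (hD _)
    have h2 := (cl_lip 1 (w (-1)) (w' (-1))).trans (hD _)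
    linarith
  obtain ⟨w, hw⟩ := exists_fixed (fun w n => if n = 0 then 1 else -(Nm w n / Dn w n)) 1 (3 / 5)
    (by norm_num) (by norm_num) (by
      intro w n
      split_ifs with hn
      · norm_num
      · rw [abs_neg, abs_div, div_le_one (abs_pos.2 (by linarith [hDb w n hn]))]
        rw [abs_of_pos (by linarith [hDb w n hn] : 0 < Dn w n)]
        linarith [hNb w n hn, hDb w n hn]) (by
      intro w w' D hD n
      have hD0 : 0 ≤ D := (abs_nonneg _).trans (hD 0)
      split_ifs with hn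
      · simp only [sub_self, abs_zero]
        positivity
      · have h1 := hNb w' n hn
        have h2 := hDb w n hn
        have h3 := hDb w' n hn
        have h4 := hNl w w' D hD n hn
        have h5 := hDl w w' D hD n
        have e : -(Nm w n / Dn w n) - -(Nm w' n / Dn w' n) =
            (Nm w' n - Nm w n) / Dn w n + Nm w' n * (Dn w n - Dn w' n) / (Dn w n * Dn w' n) := by
          have : Dn w n ≠ 0 := by linarith
          have : Dn w' n ≠ 0 := by linarith
          field_simp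
          ring
        rw [e]
        refine (abs_add_le _ _).trans ?_
        have h6 : |(Nm w' n - Nm w n) / Dn w n| ≤ 1 / 2 * D := by
          rw [abs_div, abs_of_pos (by linarith : 0 < Dn w n), div_le_iff₀ (by linarith),
            abs_sub_comm]
          nlinarith
        have h7 : |Nm w' n * (Dn w n - Dn w' n) / (Dn w n * Dn w' n)| ≤ 1 / 10 * D := by
          have h8 : 25 ≤ Dn w n * Dn w' n := by nlinarith
          rw [abs_div, abs_of_pos (by linarith : 0 < Dn w n * Dn w' n),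
            div_le_iff₀ (by linarith), abs_mul]
          calc |Nm w' n| * |Dn w n - Dn w' n| ≤ 5 / 2 * D :=
                mul_le_mul h1 h5 (abs_nonneg _) (by norm_num)
            _ = 1 / 10 * D * 25 := by ring
            _ ≤ 1 / 10 * D * (Dn w n * Dn w' n) := by
                apply mul_le_mul_of_nonneg_left h8
                positivity
        linarith)
  have hw0 : w 0 = 1 := by
    rw [← congrFun hw 0]
    simp
  have hwn : ∀ n, n ≠ 0 → w n = -(Nm w n / Dn w n) := by
    intro n hn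
    have := congrFun hw n
    rw [if_neg hn] at this
    exact this.symm
  have hwb : ∀ n, |w n| ≤ 1 := by
    intro n
    by_cases hn : n = 0
    · rw [hn, hw0]
      norm_num
    · rw [hwn n hn, abs_neg, abs_div, div_le_one (abs_pos.2 (by linarith [hDb w n hn]))]
      rw [abs_of_pos (by linarith [hDb w n hn] : 0 < Dn w n)]
      linarith [hNb w n hn, hDb w n hn]
  have hcl : ∀ n, cl 1 (w n) = w n := fun n => cl_eq (hwb n)
  refine ⟨V 0 - 2 + (w 1 + w (-1)) / 2, fun n => (1 / 2) ^ n.natAbs * w n, ?_, ?_, ?_⟩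
  · simp [hw0]
  · intro n
    rw [abs_mul, abs_of_pos (by positivity)]
    exact mul_le_of_le_one_right (by positivity) (hwb n)
  · intro n
    dsimp only
    by_cases hn : n = 0
    · subst hn
      simp only [zero_add, zero_sub, Int.natAbs_one, Int.natAbs_zero, Int.natAbs_neg, pow_one,
        pow_zero, hw0]
      ring
    · have h1 := hwn n hn
      have h2 : Dn w n ≠ 0 := by linarith [hDb w n hn]
      have h3 : w n * Dn w n = -Nm w n := by
        rw [h1]
        field_simp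
      rw [hNm, hDn] at h3
      dsimp only at h3
      rw [hcl, hcl, hcl, hcl] at h3
      have h4 : ((1 : ℝ) / 2) ^ (n + 1).natAbs = (1 / 2) ^ n.natAbs * α n := by
        rw [hα]
        dsimp only
        rcases lt_or_gt_of_ne hn with h | h
        · rw [if_neg (by omega)]
          have : n.natAbs = (n + 1).natAbs + 1 := by omega
          rw [this, pow_succ]
          ring
        · rw [if_pos (by omega)]
          have : (n + 1).natAbs = n.natAbs + 1 := by omega
          rw [this, pow_succ]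
      have h5 : ((1 : ℝ) / 2) ^ (n - 1).natAbs = (1 / 2) ^ n.natAbs * β n := by
        rw [hβ]
        dsimp only
        rcases lt_or_gt_of_ne hn with h | h
        · rw [if_neg (by omega)]
          have : (n - 1).natAbs = n.natAbs + 1 := by omega
          rw [this, pow_succ]
        · rw [if_pos (by omega)]
          have : n.natAbs = (n - 1).natAbs + 1 := by omega
          rw [this, pow_succ]
          ring
      rw [h4, h5]
      linear_combination ((1 : ℝ) / 2) ^ n.natAbs * h3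

end Pool.Agent.MP31f1e8
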